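import Pool.Agent.U746.AP.Arb2

/-! The main theorem for arbitrary subsets of regular sets. -/

set_option autoImplicit false

namespace Pool.Agent.U746.AP
open Finset Polynomial
open Pool.Agent.H373R2.T7 Pool.Agent.U746.AS

/-- a grid adapted to a set -/
lemma grid (S : Set ℕ) (J N x : ℕ) (hJ : 0 < J) (hN : 0 < N) (hS : cntS S x ≤ N) :
    ∃ g : ℕ → ℕ, (∀ j, g j ≤ x) ∧ ∀ y : ℕ, y ≤ x → ∃ i < 2 * (J + 2), ∃ j < 2 * (J + 2), g i ≤ y ∧ y ≤ g j ∧
      J * cntS S y ≤ J * cntS S (g i) + N ∧ J * cntS S (g j) ≤ J * cntS S y + N := by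
  classical
  set lo : ℕ → ℕ := fun j => if h : ∃ y : ℕ, y ≤ x ∧ j * N ≤ J * cntS S y then Nat.find h else 0 with hlo
  set hi : ℕ → ℕ := fun j => Nat.findGreatest (fun y => J * cntS S y ≤ j * N) x with hhi
  set G : ℕ → ℕ := fun j => if j < J + 2 then lo j else hi (j - (J + 2)) with hG
  have hGlo : ∀ j, j < J + 2 → G j = lo j := fun j h => by rw [hG]; simp only; rw [if_pos h]
  have hGhi : ∀ j, G (J + 2 + j) = hi j := fun j => by
    rw [hG]; simp only; rw [if_neg (by omega)]; congr 1; omega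
  refine ⟨G, fun j => ?_, fun y hy => ?_⟩
  · rw [hG]
    simp only
    split_ifs with h
    · rw [hlo]
      simp only
      split_ifs with h2
      · exact (Nat.find_spec h2).1
      · exact Nat.zero_le _
    · rw [hhi]
      exact Nat.findGreatest_le x
  · obtain ⟨j, hj⟩ : ∃ j, j = J * cntS S y / N := ⟨_, rfl⟩
    have hj1 : j * N ≤ J * cntS S y := by rw [hj]; exact Nat.div_mul_le_self _ _
    have hj2 : J * cntS S y < j * N + N := by
      have := Nat.lt_div_mul_add hN (a := J * cntS S y)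
      rw [← hj] at this
      exact this
    have e3 : (j + 1) * N = j * N + N := by ring
    have hsy : cntS S y ≤ N := (cntS_mono S hy).trans hS
    have hjJ : j ≤ J := by
      rw [hj]
      apply Nat.div_le_of_le_mul
      calc J * cntS S y ≤ J * N := Nat.mul_le_mul_left _ hsy
        _ = _ := by ring
    have hex : ∃ y : ℕ, y ≤ x ∧ j * N ≤ J * cntS S y := ⟨y, hy, hj1⟩
    obtain ⟨p, hp⟩ : ∃ p, p = lo j := ⟨_, rfl⟩
    have elo : lo j = Nat.find hex := by
      rw [hlo]; simp only; rw [dif_pos hex]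
    have f1 : j * N ≤ J * cntS S p := by
      rw [hp, elo]; exact (Nat.find_spec hex).2
    have f2 : p ≤ y := by
      rw [hp, elo]; exact Nat.find_min' hex ⟨hy, hj1⟩
    obtain ⟨q, hq⟩ : ∃ q, q = hi (j + 1) := ⟨_, rfl⟩
    have f3 : y ≤ q := by
      rw [hq, hhi]
      exact Nat.le_findGreatest hy (by rw [e3]; exact hj2.le)
    have f4 : J * cntS S q ≤ j * N + N := by
      rw [hq, hhi, ← e3]
      exact Nat.findGreatest_spec (P := fun y => J * cntS S y ≤ (j + 1) * N) hy (by rw [e3]; exact hj2.le)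
    refine ⟨j, by omega, J + 2 + (j + 1), by omega, ?_⟩
    rw [hGlo j (by omega), hGhi, ← hp, ← hq]
    refine ⟨f2, f3, ?_, ?_⟩
    · omega
    · omega

set_option maxHeartbeats 1000000 in
open Classical in
/-- **arbitrary subsets of regular sets**: the number of the elements `n` of `S` at which all values are prime is given by
the number of those at which all values are free of prime factors `≤ w`, for almost all vectors of constant terms -/
theorem arb2 {k : ℕ} (F : Fin k → ℤ[X]) (hd : ∀ i, 1 ≤ (F i).natDegree) (hl : ∀ i, 0 < (F i).leadingCoeff)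
    (σ : Fin k → ℤ) (hσ : ∀ i, σ i = 1 ∨ σ i = -1) (C : ℕ) (M : ℝ) (hM : 1 ≤ M)
    (B : ℕ) (hB : 1 ≤ B) (ε : ℝ) (hε : 0 < ε) : ∃ w0 : ℕ, 3 ≤ w0 ∧ ∀ w : ℕ, w0 ≤ w → ∀ T : Set ℕ, Reg T C M →
    ∃ x0 : ℕ, ∀ x : ℕ, x0 ≤ x →
    ∀ c A : Fin k → ℕ, (∀ i, c i + A i ≤ B * x ^ (F i).natDegree ∧ x ^ (F i).natDegree ≤ B * A i) →
    (∀ i, σ i = -1 → ∀ n : ℕ, 1 ≤ n → n ≤ x → (F i).eval (n : ℤ) ≤ c i) →
    ∀ S : Set ℕ, S ⊆ T → (((box c A).filter (fun a => ¬ ∀ y : ℕ, y ≤ x →
      |Lam F x * NP F σ a S y - (Vz w)⁻¹ ^ k * MP F σ a S w y| ≤ ε * cntS T x)).card : ℝ) ≤ ε * ∏ i, (A i : ℝ) := by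
  -- reduction to `ε ≤ 1`
  wlog hε1 : ε ≤ 1 with H
  · obtain ⟨w0, h3, h0⟩ := H F hd hl σ hσ C M hM B hB 1 one_pos le_rfl
    push Not at hε1
    refine ⟨w0, h3, fun w hw T hT => ?_⟩
    obtain ⟨x0, h1⟩ := h0 w hw T hT
    refine ⟨x0, fun x hx c A hA hc S hST => ?_⟩
    have h2 := h1 x hx c A hA hc S hST
    have h4 : (0 : ℝ) ≤ ∏ i, (A i : ℝ) := prod_nonneg fun i _ => Nat.cast_nonneg _
    refine le_trans ?_ (h2.trans ?_)
    · apply Nat.cast_le.2
      apply card_le_card
      intro a ha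
      rw [mem_filter] at ha ⊢
      refine ⟨ha.1, fun h => ha.2 fun y hy => (h y hy).trans ?_⟩
      exact mul_le_mul_of_nonneg_right hε1.le (Nat.cast_nonneg _)
    · exact mul_le_mul_of_nonneg_right hε1.le h4
  set δ : ℝ := ε / 8 with hδ
  have hδ0 : 0 < δ := by positivity
  have hδ1 : δ ≤ 1 := by linarith
  set ε0 : ℝ := (δ ^ 2 * ε / 64) ^ 2 / (64 * M) with hε0
  obtain ⟨w1, hw13, hw1⟩ := w_choice' k (2 * (3 ^ k * Dg F)) k ε0 (by positivity)
  set lc : ℕ := univ.sup (fun i => (F i).leadingCoeff.natAbs) with hlc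
  refine ⟨max w1 lc, hw13.trans (le_max_left _ _), fun w hw T hT => ?_⟩
  have hww1 : w1 ≤ w := (le_max_left _ _).trans hw
  have hw3 : 3 ≤ w := hw13.trans hww1
  have hwl : ∀ p : ℕ, w < p → ∀ i, ¬ (p : ℤ) ∣ (F i).leadingCoeff := by
    intro p hp i hdv
    have h1 : (F i).leadingCoeff.natAbs ≤ lc := le_sup (f := fun i => (F i).leadingCoeff.natAbs) (mem_univ i)
    have h2 := Int.le_of_dvd (hl i) hdv
    have h3 : lc ≤ w := (le_max_right _ _).trans hw
    have := hl i
    omega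
  set V : ℝ := (Vz w)⁻¹ ^ k with hV
  have hVz := Vz_pos w
  have hV1 : 1 ≤ V := one_le_pow₀ (by rw [one_le_inv₀ hVz]; exact Pool.Agent.U746.AS.Vz_le_one w)
  have hV0 : 0 < V := by linarith
  set ε1 : ℝ := δ ^ 2 * ε / (64 * V) with hε1d
  have hε10 : 0 < ε1 := by positivity
  set η : ℝ := ε / (4 * (k + 1)) with hη
  have hη0 : 0 < η := by positivity
  set J : ℕ := ⌈V / δ⌉₊ + 1 with hJ
  have hJ1 : V / δ ≤ J := by
    rw [hJ]; push_cast
    have := Nat.le_ceil (V / δ)
    linarith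
  have hJ2 : 2 * ((J : ℝ) + 2) ≤ 12 * (V / δ) := by
    have h1 := (Nat.ceil_lt_add_one (show 0 ≤ V / δ by positivity)).le
    have h2 : 1 ≤ V / δ := by rw [le_div_iff₀ hδ0]; linarith
    rw [hJ]; push_cast
    linarith
  have hJ0 : 0 < J := by omega
  have hJr : (0 : ℝ) < J := by exact_mod_cast hJ0
  have hVJ : V / J ≤ δ := by
    rw [div_le_iff₀ hδ0] at hJ1
    rw [div_le_iff₀ hJr]
    linarith
  have hu := hw1 w hww1
  have hu1 : ((Vz w)⁻¹ ^ 2) ^ k * (Real.exp (((2 * (3 ^ k * Dg F) : ℕ) : ℝ) / w) - 1) ≤ ε1 ^ 2 / (64 * M) := by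
    refine hu.trans (le_of_eq ?_)
    rw [hε0, hε1d, hV]
    have e : (Vz w ^ 2) ^ k = (((Vz w)⁻¹ ^ k) ^ 2)⁻¹ := by
      rw [← pow_mul, ← pow_mul, mul_comm 2 k, inv_pow, inv_inv]
    rw [e]
    field_simp
  obtain ⟨N1, h1⟩ := l12 F hd hl σ hσ T C M hM hT B hB ε1 hε10 w hw3 hwl hu1
  obtain ⟨N2, h2⟩ := good_pt2 F hd hl σ hσ B hB η δ hη0 hδ0 hδ1 w
  obtain ⟨N3, h3⟩ := hT 1
  refine ⟨max (max N1 N2) (max N3 3), fun x hx c A hA hc S hST => ?_⟩
  have b1 : N1 ≤ x := le_trans (le_trans (le_max_left _ _) (le_max_left _ _)) hx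
  have b2 : N2 ≤ x := le_trans (le_trans (le_max_right _ _) (le_max_left _ _)) hx
  have b3 : N3 ≤ x := le_trans (le_trans (le_max_left _ _) (le_max_right _ _)) hx
  have b4 : 3 ≤ x := le_trans (le_trans (le_max_right _ _) (le_max_right _ _)) hx
  have hx0 : (0 : ℝ) < x := by exact_mod_cast (by omega : 0 < x)
  obtain ⟨hNx, -⟩ := h3 x b3
  set N : ℝ := (cntS T x : ℝ) with hNd
  have hNpos : 0 < cntS T x := by
    rcases Nat.eq_zero_or_pos (cntS T x) with h | h
    · rw [hNd, h] at hNx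
      simp at hNx
      omega
    · exact h
  have hN0 : 0 < N := by rw [hNd]; exact_mod_cast hNpos
  set PA : ℝ := ∏ i, (A i : ℝ) with hPA
  have hPA0 : 0 ≤ PA := prod_nonneg fun i _ => Nat.cast_nonneg _
  obtain ⟨g, hg1, hg2⟩ := grid S J (cntS T x) x hJ0 hNpos (cntS_sub hST x)
  set R : ℕ → (Fin k → ℕ) → ℝ := fun j a => |∑ n ∈ elts T x, ind S (g j) n * (PQ F σ a n - PM F σ w a n)| with hR
  set Bad2 := (box c A).filter (fun a => ∃ i, ((a i : ℕ) : ℝ) ≤ c i + η * A i) with hBad2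
  set Bad1 := (range (2 * (J + 2))).biUnion (fun j => (box c A).filter (fun a => δ * N < R j a)) with hBad1
  have hsub : (box c A).filter (fun a => ¬ ∀ y : ℕ, y ≤ x →
      |Lam F x * NP F σ a S y - V * MP F σ a S w y| ≤ ε * N) ⊆ Bad1 ∪ Bad2 := by
    intro a ha
    rw [mem_filter] at ha
    obtain ⟨habox, ha2⟩ := ha
    rw [mem_union]
    by_contra hcon
    push Not at hcon
    obtain ⟨hc1, hc2⟩ := hcon
    have hgd : ∀ i, a i ≤ c i + A i ∧ c i + η * A i < a i := by
      intro i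
      have h4 := habox
      unfold box at h4
      refine ⟨(mem_Ioc.1 ((Fintype.mem_piFinset.1 h4) i)).2, ?_⟩
      by_contra h
      push Not at h
      exact hc2 (mem_filter.2 ⟨habox, i, h⟩)
    have hTj : ∀ j < 2 * (J + 2), R j a ≤ δ * N := by
      intro j hj
      by_contra h
      push Not at h
      exact hc1 (mem_biUnion.2 ⟨j, mem_range.2 hj, mem_filter.2 ⟨habox, h⟩⟩)
    have hgrid : ∀ j < 2 * (J + 2),
        |Lam F x * NP F σ a S (g j) - V * MP F σ a S w (g j)| ≤ 2 * δ * N := by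
      intro j hj
      exact h2 x b2 c A hA hc a hgd S T hST _ (hg1 j) (hTj j hj)
    apply ha2
    intro y hy
    have hΛ : 0 ≤ Lam F x := prod_nonneg fun i _ => by
      have : 0 ≤ Real.log (x : ℝ) := Real.log_natCast_nonneg _
      positivity
    obtain ⟨i, hi, j, hj, f1, f2, f3, f4⟩ := hg2 y hy
    have g1 := hgrid i hi
    have g2 := hgrid j hj
    have f3' : (cntS S y : ℝ) ≤ cntS S (g i) + N / J := by
      have h5 : (J : ℝ) * cntS S y ≤ J * cntS S (g i) + N := by
        have : ((J * cntS S y : ℕ) : ℝ) ≤ ((J * cntS S (g i) + cntS T x : ℕ) : ℝ) := by exact_mod_cast f3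
        push_cast at this
        exact this
      have h6 : (cntS S (g i) : ℝ) + N / J = (J * cntS S (g i) + N) / J := by field_simp
      rw [h6, le_div_iff₀ hJr]
      linarith
    have f4' : (cntS S (g j) : ℝ) ≤ cntS S y + N / J := by
      have h5 : (J : ℝ) * cntS S (g j) ≤ J * cntS S y + N := by
        have : ((J * cntS S (g j) : ℕ) : ℝ) ≤ ((J * cntS S y + cntS T x : ℕ) : ℝ) := by exact_mod_cast f4
        push_cast at this
        exact this
      have h6 : (cntS S y : ℝ) + N / J = (J * cntS S y + N) / J := by field_simp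
      rw [h6, le_div_iff₀ hJr]
      linarith
    have d1 : (MP F σ a S w y : ℝ) + cntS S (g i) ≤ MP F σ a S w (g i) + cntS S y := by
      exact_mod_cast MP_diff F σ a S w f1
    have d2 : (MP F σ a S w (g j) : ℝ) + cntS S y ≤ MP F σ a S w y + cntS S (g j) := by
      exact_mod_cast MP_diff F σ a S w f2
    have m1 : (NP F σ a S (g i) : ℝ) ≤ NP F σ a S y := by exact_mod_cast NP_mono F σ a S f1
    have m2 : (NP F σ a S y : ℝ) ≤ NP F σ a S (g j) := by exact_mod_cast NP_mono F σ a S f2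
    have n1 := mul_le_mul_of_nonneg_left m1 hΛ
    have n2 := mul_le_mul_of_nonneg_left m2 hΛ
    have hVN : V * (N / J) ≤ δ * N := by
      calc V * (N / J) = V / J * N := by ring
        _ ≤ δ * N := mul_le_mul_of_nonneg_right hVJ hN0.le
    have n3 : V * MP F σ a S w y ≤ V * MP F σ a S w (g i) + δ * N := by
      have h5 : (MP F σ a S w y : ℝ) ≤ MP F σ a S w (g i) + N / J := by linarith
      have h6 := mul_le_mul_of_nonneg_left h5 hV0.le
      rw [mul_add] at h6
      linarith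
    have n4 : V * MP F σ a S w (g j) ≤ V * MP F σ a S w y + δ * N := by
      have h5 : (MP F σ a S w (g j) : ℝ) ≤ MP F σ a S w y + N / J := by linarith
      have h6 := mul_le_mul_of_nonneg_left h5 hV0.le
      rw [mul_add] at h6
      linarith
    have g1' := abs_le.1 g1
    have g2' := abs_le.1 g2
    have hδN : 3 * δ * N ≤ ε * N := by
      have : 3 * δ ≤ ε := by rw [hδ]; linarith
      exact mul_le_mul_of_nonneg_right this hN0.le
    rw [abs_le]
    constructor <;> linarith [g1'.1, g1'.2, g2'.1, g2'.2]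
  have hc1 : (Bad1.card : ℝ) ≤ ε / 4 * PA := by
    have h5 : ∀ j ∈ range (2 * (J + 2)), (((box c A).filter (fun a => δ * N < R j a)).card : ℝ) ≤ ε1 / δ * PA := by
      intro j _
      have h6 := h1 x b1 c A hA hc (ind S (g j)) (fun n => ind_mem S _ n)
      have h7 : (((box c A).filter (fun a => δ * N < R j a)).card : ℝ) * (δ * N) ≤ ∑ a ∈ box c A, R j a := by
        calc (((box c A).filter (fun a => δ * N < R j a)).card : ℝ) * (δ * N) = ∑ _a ∈ (box c A).filter (fun a => δ * N < R j a), δ * N := by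
              rw [sum_const, nsmul_eq_mul]
          _ ≤ ∑ a ∈ (box c A).filter (fun a => δ * N < R j a), R j a := sum_le_sum fun a ha => (mem_filter.1 ha).2.le
          _ ≤ ∑ a ∈ box c A, R j a := sum_le_sum_of_subset_of_nonneg (filter_subset _ _) (fun _ _ _ => abs_nonneg _)
      have h8 := h7.trans h6
      rw [← le_div_iff₀ (by positivity)] at h8
      refine h8.trans (le_of_eq ?_)
      rw [← hNd, ← hPA]
      field_simp
    calc (Bad1.card : ℝ) ≤ ((∑ j ∈ range (2 * (J + 2)), ((box c A).filter (fun a => δ * N < R j a)).card : ℕ) : ℝ) := by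
          exact_mod_cast card_biUnion_le
      _ ≤ ∑ _j ∈ range (2 * (J + 2)), ε1 / δ * PA := by
          push_cast
          exact sum_le_sum h5
      _ = (2 * ((J : ℝ) + 2)) * (ε1 / δ * PA) := by
          rw [sum_const, card_range, nsmul_eq_mul]; push_cast; ring
      _ ≤ (12 * (V / δ)) * (ε1 / δ * PA) := mul_le_mul_of_nonneg_right hJ2 (by positivity)
      _ = (12 / 64) * ε * PA := by
          rw [hε1d]; field_simp
      _ ≤ ε / 4 * PA := by
          apply mul_le_mul_of_nonneg_right _ hPA0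
          linarith
  have hc2 : (Bad2.card : ℝ) ≤ ε / 4 * PA := by
    refine (small_coord2 c A η hη0.le).trans ?_
    apply mul_le_mul_of_nonneg_right _ hPA0
    rw [hη]
    have : (k : ℝ) * (ε / (4 * (k + 1))) = ε / 4 * (k / (k + 1)) := by field_simp
    rw [this]
    have h5 : (k : ℝ) / (k + 1) ≤ 1 := by
      rw [div_le_one (by positivity)]; linarith
    have : 0 < ε / 4 := by positivity
    nlinarith
  calc _ ≤ ((Bad1 ∪ Bad2).card : ℝ) := by exact_mod_cast card_le_card hsub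
    _ ≤ (Bad1.card : ℝ) + Bad2.card := by exact_mod_cast card_union_le _ _
    _ ≤ ε * PA := by
        have : 0 ≤ ε * PA := by positivity
        linarith

end Pool.Agent.U746.AP
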