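import Pool.Agent.U746.AP.L12

/-! Prime values of systems of polynomials at the elements of arbitrary subsets of a regular set, for almost all
constant terms. -/

set_option autoImplicit false

namespace Pool.Agent.U746.AP
open Finset Polynomial
open Pool.Agent.H373R2.T7 Pool.Agent.U746.AS

open Classical in
/-- the number of `n ≤ y` in `S` with all values prime -/
noncomputable def NP {k : ℕ} (F : Fin k → ℤ[X]) (σ : Fin k → ℤ) (a : Fin k → ℕ) (S : Set ℕ) (y : ℕ) : ℕ :=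
  ((Icc 1 y).filter (fun n : ℕ => n ∈ S ∧ ∀ i, (vl F σ a i n).toNat.Prime)).card

open Classical in
/-- the number of `n ≤ y` in `S` with all values free of prime factors up to `w` -/
noncomputable def MP {k : ℕ} (F : Fin k → ℤ[X]) (σ : Fin k → ℤ) (a : Fin k → ℕ) (S : Set ℕ) (w y : ℕ) : ℕ :=
  ((Icc 1 y).filter (fun n : ℕ => n ∈ S ∧ ∀ i, ∀ p ∈ pz w, ¬ (p : ℤ) ∣ vl F σ a i n)).card

lemma NP_mono {k : ℕ} (F : Fin k → ℤ[X]) (σ : Fin k → ℤ) (a : Fin k → ℕ) (S : Set ℕ) {y y' : ℕ} (h : y ≤ y') :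
    NP F σ a S y ≤ NP F σ a S y' := by
  classical
  unfold NP
  apply card_le_card
  apply filter_subset_filter
  exact Icc_subset_Icc_right h

lemma MP_mono {k : ℕ} (F : Fin k → ℤ[X]) (σ : Fin k → ℤ) (a : Fin k → ℕ) (S : Set ℕ) (w : ℕ) {y y' : ℕ} (h : y ≤ y') :
    MP F σ a S w y ≤ MP F σ a S w y' := by
  classical
  unfold MP
  apply card_le_card
  apply filter_subset_filter
  exact Icc_subset_Icc_right h

lemma cntS_mono (S : Set ℕ) {y y' : ℕ} (h : y ≤ y') : cntS S y ≤ cntS S y' := by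
  classical
  unfold cntS
  apply card_le_card
  apply filter_subset_filter
  exact Icc_subset_Icc_right h

lemma cntS_sub {S T : Set ℕ} (h : S ⊆ T) (y : ℕ) : cntS S y ≤ cntS T y := by
  classical
  unfold cntS
  apply card_le_card
  intro n hn
  rw [mem_filter] at hn ⊢
  exact ⟨hn.1, h hn.2⟩

lemma MP_diff {k : ℕ} (F : Fin k → ℤ[X]) (σ : Fin k → ℤ) (a : Fin k → ℕ) (S : Set ℕ) (w : ℕ) {y y' : ℕ} (h : y ≤ y') :
    MP F σ a S w y' + cntS S y ≤ MP F σ a S w y + cntS S y' := by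
  classical
  have h2 : cntS S y + ((Ioc y y').filter (fun n : ℕ => n ∈ S)).card = cntS S y' := by
    unfold cntS
    rw [← card_union_of_disjoint]
    · congr 1
      ext n
      simp only [mem_union, mem_filter, mem_Icc, mem_Ioc]
      constructor
      · rintro (⟨⟨h1, h2⟩, h3⟩ | ⟨⟨h1, h2⟩, h3⟩)
        · exact ⟨⟨h1, h2.trans h⟩, h3⟩
        · exact ⟨⟨by omega, h2⟩, h3⟩
      · rintro ⟨⟨h1, h2⟩, h3⟩
        rcases le_or_gt n y with h4 | h4
        · exact Or.inl ⟨⟨h1, h4⟩, h3⟩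
        · exact Or.inr ⟨⟨h4, h2⟩, h3⟩
    · rw [Finset.disjoint_left]
      intro n h1 h2
      simp only [mem_filter, mem_Icc, mem_Ioc] at h1 h2
      omega
  have h1 : MP F σ a S w y' ≤ MP F σ a S w y + ((Ioc y y').filter (fun n : ℕ => n ∈ S)).card := by
    unfold MP
    refine le_trans (card_le_card ?_) (card_union_le _ _)
    intro n hn
    simp only [mem_union, mem_filter, mem_Icc, mem_Ioc] at hn ⊢
    rcases le_or_gt n y with h4 | h4
    · exact Or.inl ⟨⟨hn.1.1, h4⟩, hn.2⟩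
    · exact Or.inr ⟨⟨h4, hn.1.2⟩, hn.2.1⟩
  omega

lemma MP_le {k : ℕ} (F : Fin k → ℤ[X]) (σ : Fin k → ℤ) (a : Fin k → ℕ) (S : Set ℕ) (w y : ℕ) : MP F σ a S w y ≤ cntS S y := by
  classical
  unfold MP cntS
  apply card_le_card
  intro n hn
  rw [mem_filter] at hn ⊢
  exact ⟨hn.1, hn.2.1⟩

lemma log_between (v l u X : ℝ) (d : ℕ) (hl : 0 < l) (hX : 0 < X) (h1 : l * X ^ d ≤ v) (h2 : v ≤ u * X ^ d) :
    |Real.log v - d * Real.log X| ≤ |Real.log l| + |Real.log u| := by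
  have hv : 0 < v := lt_of_lt_of_le (by positivity) h1
  have hu : 0 < u := by
    by_contra h
    have : u * X ^ d ≤ 0 := mul_nonpos_of_nonpos_of_nonneg (not_lt.1 h) (by positivity)
    linarith
  have l1 := Real.log_le_log (by positivity) h1
  have l2 := Real.log_le_log hv h2
  rw [Real.log_mul hl.ne' (by positivity), Real.log_pow] at l1
  rw [Real.log_mul hu.ne' (by positivity), Real.log_pow] at l2
  have m1 := le_abs_self (Real.log u)
  have m2 := neg_abs_le (Real.log l)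
  have m3 := abs_nonneg (Real.log u)
  have m4 := abs_nonneg (Real.log l)
  rw [abs_le]
  constructor <;> linarith

/-- the logarithms of the values -/
lemma log_val2 (g : ℤ[X]) (hd : 1 ≤ g.natDegree) (hl : 0 < g.leadingCoeff) (σ : ℤ) (hσ : σ = 1 ∨ σ = -1)
    (B : ℕ) (hB : 1 ≤ B) (η : ℝ) (hη : 0 < η) :
    ∃ C : ℝ, 0 ≤ C ∧ ∃ x0 : ℕ, ∀ x : ℕ, x0 ≤ x → ∀ c A : ℕ, c + A ≤ B * x ^ g.natDegree → x ^ g.natDegree ≤ B * A →
    (σ = -1 → ∀ n : ℕ, 1 ≤ n → n ≤ x → g.eval (n : ℤ) ≤ c) →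
    ∀ a : ℕ, a ≤ c + A → c + η * A < a → ∀ n : ℕ, 1 ≤ n → n ≤ x → 1 ≤ (a : ℤ) + σ * g.eval (n : ℤ) →
    |Real.log ((((a : ℤ) + σ * g.eval (n : ℤ)).toNat : ℕ) : ℝ) - g.natDegree * Real.log x| ≤ C := by
  obtain ⟨c0, hc0⟩ := low_bd g hd hl
  set d := g.natDegree with hdd
  have hBr : (1 : ℝ) ≤ B := by exact_mod_cast hB
  have hcf : (0 : ℝ) ≤ cf g := Nat.cast_nonneg _
  refine ⟨|Real.log (η / (2 * B))| + |Real.log (B + cf g + c0)|, by positivity, ⌈2 * B * c0 / η⌉₊ + 2, ?_⟩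
  intro x hx c A hA1 hA2 hc a ha1 ha2 n hn1 hnx hv
  have hxc : 2 * B * c0 / η ≤ x := by
    have h1 : ⌈2 * (B : ℝ) * c0 / η⌉₊ ≤ x := by omega
    exact (Nat.le_ceil _).trans (by exact_mod_cast h1)
  have hx0 : (0 : ℝ) < x := by exact_mod_cast (by omega : 0 < x)
  have hx1 : (1 : ℝ) ≤ x := by exact_mod_cast (by omega : 1 ≤ x)
  have hxd : (x : ℝ) ≤ (x : ℝ) ^ d := le_self_pow₀ hx1 (by omega)
  have hxd1 : 1 ≤ (x : ℝ) ^ d := hx1.trans hxd
  have hval : ((((a : ℤ) + σ * g.eval (n : ℤ)).toNat : ℕ) : ℝ) = (a : ℝ) + σ * ((g.eval (n : ℤ) : ℤ) : ℝ) := by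
    have h1 : ((((a : ℤ) + σ * g.eval (n : ℤ)).toNat : ℕ) : ℤ) = (a : ℤ) + σ * g.eval (n : ℤ) := Int.toNat_of_nonneg (by omega)
    have h2 : (((((a : ℤ) + σ * g.eval (n : ℤ)).toNat : ℕ) : ℤ) : ℝ) = (((a : ℤ) + σ * g.eval (n : ℤ) : ℤ) : ℝ) := by rw [h1]
    push_cast at h2
    exact_mod_cast h2
  rw [hval]
  have h1 := (le_abs_self _).trans (abs_eval_le g n hn1)
  have h2 : ((g.eval (n : ℤ) : ℤ) : ℝ) ≤ (cf g : ℝ) * (n : ℝ) ^ d := by exact_mod_cast h1
  have h3 : (n : ℝ) ^ d ≤ (x : ℝ) ^ d := pow_le_pow_left₀ (by positivity) (by exact_mod_cast hnx) _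
  have h5 := mul_le_mul_of_nonneg_left h3 hcf
  have h4 : (a : ℝ) ≤ B * (x : ℝ) ^ d := by exact_mod_cast ha1.trans hA1
  have h6 : -(c0 : ℝ) ≤ ((g.eval (n : ℤ) : ℤ) : ℝ) := by exact_mod_cast hc0 n
  have h7 : (x : ℝ) ^ d ≤ B * A := by exact_mod_cast hA2
  have h8 : η / B * (x : ℝ) ^ d ≤ η * A := by
    rw [div_mul_eq_mul_div, div_le_iff₀ (by linarith)]
    calc η * (x : ℝ) ^ d ≤ η * (B * A) := mul_le_mul_of_nonneg_left h7 hη.le
      _ = _ := by ring
  have h9 : (c0 : ℝ) ≤ η / (2 * B) * (x : ℝ) ^ d := by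
    rw [div_le_iff₀ hη] at hxc
    rw [div_mul_eq_mul_div, le_div_iff₀ (by linarith)]
    have : η * x ≤ η * (x : ℝ) ^ d := mul_le_mul_of_nonneg_left hxd hη.le
    linarith
  have h10 : η / B * (x : ℝ) ^ d = 2 * (η / (2 * B) * (x : ℝ) ^ d) := by field_simp
  have hc0' : (0 : ℝ) ≤ c := Nat.cast_nonneg _
  have hc00 : (0 : ℝ) ≤ c0 := Nat.cast_nonneg _
  have hc0x : (c0 : ℝ) ≤ c0 * (x : ℝ) ^ d := le_mul_of_one_le_right hc00 hxd1
  have hcfx : (0 : ℝ) ≤ cf g * (x : ℝ) ^ d := by positivity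
  apply log_between _ _ _ _ _ (by positivity) hx0
  · rcases hσ with h | h
    · rw [h]; push_cast; linarith
    · have h11 := hc h n hn1 hnx
      have h12 : ((g.eval (n : ℤ) : ℤ) : ℝ) ≤ c := by exact_mod_cast h11
      rw [h]; push_cast
      have : 0 ≤ η / (2 * B) * (x : ℝ) ^ d := by positivity
      linarith
  · rcases hσ with h | h
    · rw [h]; push_cast
      have e : (B + cf g + c0) * (x : ℝ) ^ d = B * (x : ℝ) ^ d + cf g * (x : ℝ) ^ d + c0 * (x : ℝ) ^ d := by ring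
      linarith
    · rw [h]; push_cast
      have e : (B + cf g + c0) * (x : ℝ) ^ d = B * (x : ℝ) ^ d + cf g * (x : ℝ) ^ d + c0 * (x : ℝ) ^ d := by ring
      linarith

/-- few vectors have a coordinate near the lower end -/
lemma small_coord2 {k : ℕ} (c A : Fin k → ℕ) (η : ℝ) (hη : 0 ≤ η) :
    (((box c A).filter (fun a => ∃ i, ((a i : ℕ) : ℝ) ≤ c i + η * A i)).card : ℝ) ≤
      k * η * ∏ i, (A i : ℝ) := by
  classical
  unfold box
  have h1 : (Fintype.piFinset (fun i => Ioc (c i) (c i + A i))).filter (fun a => ∃ i, ((a i : ℕ) : ℝ) ≤ c i + η * A i) ⊆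
      univ.biUnion (fun i : Fin k => Fintype.piFinset (fun j => (Ioc (c j) (c j + A j)).filter (fun b : ℕ => j = i → (b : ℝ) ≤ c j + η * A j))) := by
    intro a ha
    rw [mem_filter, Fintype.mem_piFinset] at ha
    obtain ⟨h2, i, hi⟩ := ha
    rw [mem_biUnion]
    refine ⟨i, mem_univ _, ?_⟩
    rw [Fintype.mem_piFinset]
    intro j
    rw [mem_filter]
    exact ⟨h2 j, fun h => by rw [h]; exact hi⟩
  have h2 : ∀ i : Fin k, ((Fintype.piFinset (fun j => (Ioc (c j) (c j + A j)).filter (fun b : ℕ => j = i → (b : ℝ) ≤ c j + η * A j))).card : ℝ) ≤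
      η * ∏ i, (A i : ℝ) := by
    intro i
    rw [Fintype.card_piFinset]
    push_cast
    have h3 : ∀ j ∈ (univ : Finset (Fin k)), ((((Ioc (c j) (c j + A j)).filter (fun b : ℕ => j = i → (b : ℝ) ≤ c j + η * A j)).card : ℕ) : ℝ) ≤
        (A j : ℝ) * (if j = i then η else 1) := by
      intro j _
      split_ifs with hj
      · have h4 : (Ioc (c j) (c j + A j)).filter (fun b : ℕ => j = i → (b : ℝ) ≤ c j + η * A j) ⊆ Ioc (c j) (c j + ⌊η * A j⌋₊) := by
          intro b hb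
          rw [mem_filter, mem_Ioc] at hb
          rw [mem_Ioc]
          refine ⟨hb.1.1, ?_⟩
          have h5 := hb.2 hj
          have h6 : ((b - c j : ℕ) : ℝ) ≤ η * A j := by
            rw [Nat.cast_sub hb.1.1.le]; linarith
          have h7 := Nat.le_floor h6
          have := hb.1.1
          omega
        have h5 := card_le_card h4
        rw [Nat.card_Ioc, Nat.add_sub_cancel_left] at h5
        calc _ ≤ ((⌊η * A j⌋₊ : ℕ) : ℝ) := by exact_mod_cast h5
          _ ≤ η * A j := Nat.floor_le (by positivity)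
          _ = _ := by ring
      · rw [mul_one]
        have := card_filter_le (Ioc (c j) (c j + A j)) (fun b : ℕ => j = i → (b : ℝ) ≤ c j + η * A j)
        rw [Nat.card_Ioc, Nat.add_sub_cancel_left] at this
        exact_mod_cast this
    refine (prod_le_prod (fun _ _ => Nat.cast_nonneg _) h3).trans (le_of_eq ?_)
    rw [prod_mul_distrib, prod_ite_eq' univ i (fun _ => η)]
    rw [if_pos (mem_univ i)]
    ring
  calc _ ≤ ((univ.biUnion (fun i : Fin k => Fintype.piFinset (fun j => (Ioc (c j) (c j + A j)).filter (fun b : ℕ => j = i → (b : ℝ) ≤ c j + η * A j)))).card : ℝ) := by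
        exact_mod_cast card_le_card h1
    _ ≤ ((∑ i : Fin k, (Fintype.piFinset (fun j => (Ioc (c j) (c j + A j)).filter (fun b : ℕ => j = i → (b : ℝ) ≤ c j + η * A j))).card : ℕ) : ℝ) := by
        exact_mod_cast card_biUnion_le
    _ ≤ ∑ _i : Fin k, η * ∏ i, (A i : ℝ) := by
        push_cast
        exact sum_le_sum fun i _ => h2 i
    _ = _ := by
        rw [sum_const, card_univ, Fintype.card_fin, nsmul_eq_mul]
        ring

lemma sum_PM {k : ℕ} (F : Fin k → ℤ[X]) (σ : Fin k → ℤ) (a : Fin k → ℕ) (S T : Set ℕ) (hST : S ⊆ T) (w y x : ℕ) (hy : y ≤ x) :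
    ∑ n ∈ elts T x, ind S y n * PM F σ w a n = (Vz w)⁻¹ ^ k * MP F σ a S w y := by
  classical
  unfold MP elts
  rw [mul_comm, ← nsmul_eq_mul, ← sum_const, sum_filter, sum_filter]
  have e : Icc 1 y = (Icc 1 x).filter (fun n => n ≤ y) := by
    ext n
    rw [mem_filter, mem_Icc, mem_Icc]
    constructor <;> intro h <;> omega
  rw [e, sum_filter]
  apply sum_congr rfl
  intro n _
  unfold ind PM LL
  by_cases hny : n ≤ y
  · by_cases hS : n ∈ S
    · rw [if_pos (hST hS), if_pos ⟨hS, hny⟩, if_pos hny, one_mul]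
      by_cases h : ∀ i, ∀ p ∈ pz w, ¬ (p : ℤ) ∣ vl F σ a i n
      · rw [if_pos ⟨hS, h⟩]
        calc _ = ∏ _i : Fin k, (Vz w)⁻¹ := prod_congr rfl fun i _ => if_pos (h i)
          _ = _ := by rw [prod_const, card_univ, Fintype.card_fin]
      · rw [if_neg (fun h2 => h h2.2)]
        rw [not_forall] at h
        obtain ⟨i, hi⟩ := h
        exact prod_eq_zero (mem_univ i) (if_neg hi)
    · rw [if_neg (fun h : n ∈ S ∧ n ≤ y => hS h.1), zero_mul, ite_self, if_pos hny, if_neg (fun h => hS h.1)]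
  · rw [if_neg (fun h : n ∈ S ∧ n ≤ y => hny h.2), zero_mul, ite_self, if_neg hny]

open Classical in
lemma sum_PQ {k : ℕ} (F : Fin k → ℤ[X]) (σ : Fin k → ℤ) (a : Fin k → ℕ) (S T : Set ℕ) (hST : S ⊆ T) (y x : ℕ) (hy : y ≤ x) (Λ θ : ℝ)
    (h : ∀ n : ℕ, 1 ≤ n → n ≤ x → (∀ i, (vl F σ a i n).toNat.Prime) → |PQ F σ a n - Λ| ≤ θ * Λ) :
    |∑ n ∈ elts T x, ind S y n * PQ F σ a n - Λ * NP F σ a S y| ≤ θ * (Λ * NP F σ a S y) := by
  unfold NP elts
  have e : Icc 1 y = (Icc 1 x).filter (fun n => n ≤ y) := by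
    ext n
    rw [mem_filter, mem_Icc, mem_Icc]
    constructor <;> intro h <;> omega
  rw [e, filter_filter]
  set P := (Icc 1 x).filter (fun n : ℕ => n ≤ y ∧ n ∈ S ∧ ∀ i, (vl F σ a i n).toNat.Prime) with hP
  have h1 : ∑ n ∈ (Icc 1 x).filter (fun n : ℕ => n ∈ T), ind S y n * PQ F σ a n = ∑ n ∈ P, PQ F σ a n := by
    rw [hP, sum_filter, sum_filter]
    apply sum_congr rfl
    intro n _
    unfold ind
    by_cases hny : n ≤ y
    · by_cases hS : n ∈ S
      · rw [if_pos (hST hS), if_pos ⟨hS, hny⟩, one_mul]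
        by_cases hp : ∀ i, (vl F σ a i n).toNat.Prime
        · rw [if_pos ⟨hny, hS, hp⟩]
        · rw [if_neg (fun h => hp h.2.2)]
          rw [not_forall] at hp
          obtain ⟨i, hi⟩ := hp
          unfold PQ
          apply prod_eq_zero (mem_univ i)
          unfold lamP
          rw [if_neg hi]
      · rw [if_neg (fun h : n ∈ S ∧ n ≤ y => hS h.1), zero_mul, ite_self, if_neg (fun h => hS h.2.1)]
    · rw [if_neg (fun h : n ∈ S ∧ n ≤ y => hny h.2), zero_mul, ite_self, if_neg (fun h => hny h.1)]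
  have h2 : Λ * (P.card : ℝ) = ∑ _n ∈ P, Λ := by
    rw [sum_const, nsmul_eq_mul, mul_comm]
  rw [h1, h2, ← sum_sub_distrib, mul_sum]
  refine (abs_sum_le_sum_abs _ _).trans (sum_le_sum ?_)
  intro n hn
  rw [hP, mem_filter, mem_Icc] at hn
  exact h n hn.1.1 hn.1.2 hn.2.2.2

theorem good_pt2 {k : ℕ} (F : Fin k → ℤ[X]) (hd : ∀ i, 1 ≤ (F i).natDegree) (hl : ∀ i, 0 < (F i).leadingCoeff)
    (σ : Fin k → ℤ) (hσ : ∀ i, σ i = 1 ∨ σ i = -1)
    (B : ℕ) (hB : 1 ≤ B) (η δ : ℝ) (hη : 0 < η) (hδ : 0 < δ) (hδ1 : δ ≤ 1) (w : ℕ) : ∃ x0 : ℕ, ∀ x : ℕ, x0 ≤ x →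
    ∀ c A : Fin k → ℕ, (∀ i, c i + A i ≤ B * x ^ (F i).natDegree ∧ x ^ (F i).natDegree ≤ B * A i) →
    (∀ i, σ i = -1 → ∀ n : ℕ, 1 ≤ n → n ≤ x → (F i).eval (n : ℤ) ≤ c i) →
    ∀ a : Fin k → ℕ, (∀ i, a i ≤ c i + A i ∧ c i + η * A i < a i) → ∀ (S T : Set ℕ), S ⊆ T → ∀ y : ℕ, y ≤ x →
    |∑ n ∈ elts T x, ind S y n * (PQ F σ a n - PM F σ w a n)| ≤ δ * cntS T x →
    |Lam F x * NP F σ a S y - (Vz w)⁻¹ ^ k * MP F σ a S w y| ≤ 2 * δ * cntS T x := by
  have h0 := fun i => log_val2 (F i) (hd i) (hl i) (σ i) (hσ i) B hB η hη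
  choose C hC x1 hx1 using h0
  set C1 : ℝ := ∑ i, C i with hC1
  have hC1n : 0 ≤ C1 := sum_nonneg fun i _ => hC i
  have hCi : ∀ i, C i ≤ C1 := fun i => single_le_sum (f := C) (fun j _ => hC j) (mem_univ i)
  set V : ℝ := (Vz w)⁻¹ ^ k with hV
  have hVz := Vz_pos w
  have hV1 : 1 ≤ V := one_le_pow₀ (by rw [one_le_inv₀ hVz]; exact Pool.Agent.U746.AS.Vz_le_one w)
  set θ : ℝ := δ / (2 * (V + 1)) with hθ
  have hθ0 : 0 < θ := by positivity
  have hθ1 : θ ≤ 1 / 2 := by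
    rw [hθ, div_le_div_iff₀ (by positivity) (by norm_num)]
    nlinarith
  obtain ⟨N3, h3⟩ := ev_L' (C1 + 1 + k * 2 ^ k * C1 / θ)
  refine ⟨max (univ.sup x1) (max N3 3), fun x hx c A hA hc a ha S T hST y hyx hT => ?_⟩
  have b1 : univ.sup x1 ≤ x := le_trans (le_max_left _ _) hx
  have b2 : N3 ≤ x := le_trans (le_trans (le_max_left _ _) (le_max_right _ _)) hx
  have b3 : 3 ≤ x := le_trans (le_trans (le_max_right _ _) (le_max_right _ _)) hx
  have hL := h3 x b2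
  set L := Real.log x with hLd
  set N : ℝ := (cntS T x : ℝ) with hNd
  have hN0 : 0 ≤ N := Nat.cast_nonneg _
  have hx0 : (0 : ℝ) < x := by exact_mod_cast (by omega : 0 < x)
  have q1 : (0 : ℝ) ≤ k * 2 ^ k * C1 / θ := by positivity
  have hL0 : 0 < L := by linarith
  have hLC : C1 / L ≤ 1 := by
    rw [div_le_one hL0]; linarith
  have hΛ : 0 < Lam F x := by
    unfold Lam
    apply prod_pos
    intro i _
    have : (0 : ℝ) < (F i).natDegree := by exact_mod_cast hd i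
    positivity
  have hpt : ∀ n : ℕ, 1 ≤ n → n ≤ x → (∀ i, (vl F σ a i n).toNat.Prime) →
      |PQ F σ a n - Lam F x| ≤ θ * Lam F x := by
    intro n hn1 hnx hp
    have e1 : PQ F σ a n = Lam F x * ∏ i, (Real.log ((((vl F σ a i n)).toNat : ℕ) : ℝ) / ((F i).natDegree * L)) := by
      unfold PQ Lam
      rw [← prod_mul_distrib]
      apply prod_congr rfl
      intro i _
      unfold lamP
      rw [if_pos (hp i), ← hLd]
      have : (0 : ℝ) < (F i).natDegree := by exact_mod_cast hd i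
      field_simp
    have e2 : PQ F σ a n - Lam F x = Lam F x *
        (∏ i, (Real.log ((((vl F σ a i n)).toNat : ℕ) : ℝ) / ((F i).natDegree * L)) - ∏ _i : Fin k, (1 : ℝ)) := by
      rw [e1, prod_const_one]; ring
    rw [e2, abs_mul, abs_of_pos hΛ, mul_comm]
    apply mul_le_mul_of_nonneg_right _ hΛ.le
    have h4 := prod_diff (univ : Finset (Fin k)) (fun i => Real.log ((((vl F σ a i n)).toNat : ℕ) : ℝ) / ((F i).natDegree * L))
      (fun _ => 1) 1 (C1 / L) le_rfl (by positivity) hLC (fun i _ => by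
        have hdi : (1 : ℝ) ≤ (F i).natDegree := by exact_mod_cast hd i
        have hx1i : x1 i ≤ x := (le_sup (f := x1) (mem_univ i)).trans b1
        have hv : 1 ≤ (a i : ℤ) + σ i * (F i).eval (n : ℤ) := by
          have h5 := (hp i).pos
          unfold vl at h5
          omega
        have h6 := hx1 i x hx1i (c i) (A i) (hA i).1 (hA i).2 (hc i) (a i) (ha i).1 (ha i).2 n hn1 hnx hv
        have e3 : Real.log ((((vl F σ a i n)).toNat : ℕ) : ℝ) / ((F i).natDegree * L) - 1 =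
          (Real.log ((((vl F σ a i n)).toNat : ℕ) : ℝ) - (F i).natDegree * L) / ((F i).natDegree * L) := by
          field_simp
        rw [e3, abs_div, abs_of_pos (show 0 < ((F i).natDegree : ℝ) * L by positivity)]
        apply div_le_div₀ hC1n (h6.trans (hCi i)) hL0
        nlinarith) (fun i _ => ⟨zero_le_one, le_rfl⟩)
    rw [card_univ, Fintype.card_fin] at h4
    refine h4.trans ?_
    have h5 : k * 2 ^ k * C1 / θ ≤ L := by linarith
    rw [div_le_iff₀ hθ0] at h5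
    have h6 : (k : ℝ) * (1 + 1) ^ k * (C1 / L) = (k * 2 ^ k * C1) / L := by norm_num; ring
    rw [h6, div_le_iff₀ hL0]
    linarith
  have k1 := sum_PQ F σ a S T hST y x hyx (Lam F x) θ hpt
  have k2 := sum_PM F σ a S T hST w y x hyx
  have k3 : ∑ n ∈ elts T x, ind S y n * (PQ F σ a n - PM F σ w a n) =
      ∑ n ∈ elts T x, ind S y n * PQ F σ a n - V * MP F σ a S w y := by
    rw [← k2, ← sum_sub_distrib]
    apply sum_congr rfl
    intro n _
    ring
  rw [k3] at hT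
  have hP0 : 0 ≤ Lam F x * NP F σ a S y := by positivity
  have hMN : (MP F σ a S w y : ℝ) ≤ N := by
    have h4 := (MP_le F σ a S w y).trans ((cntS_mono S hyx).trans (cntS_sub hST x))
    rw [hNd]
    exact Nat.cast_le.2 h4
  have hVM : V * MP F σ a S w y ≤ V * N := mul_le_mul_of_nonneg_left hMN (by linarith)
  have a1 := abs_le.1 hT
  have a2 := abs_le.1 k1
  have a3 : Lam F x * NP F σ a S y ≤ 2 * (V + 1) * N := by
    have : θ * (Lam F x * NP F σ a S y) ≤ 1 / 2 * (Lam F x * NP F σ a S y) := mul_le_mul_of_nonneg_right hθ1 hP0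
    have h7 : δ * N ≤ N := by nlinarith
    nlinarith
  have a4 : θ * (Lam F x * NP F σ a S y) ≤ δ * N := by
    calc θ * (Lam F x * NP F σ a S y) ≤ θ * (2 * (V + 1) * N) := mul_le_mul_of_nonneg_left a3 hθ0.le
      _ = δ * N := by rw [hθ]; field_simp
  rw [abs_le]
  constructor <;> linarith [a1.1, a1.2, a2.1, a2.2]

end Pool.Agent.U746.AP
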