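import Pool.Agent.U746.AP.Var2

/-! The first moment of the difference between the primes and the sieve model of a fixed level, over the
shifts, with weights on a regular set. -/

set_option autoImplicit false

namespace Pool.Agent.U746.AP
open Finset Polynomial
open Pool.Agent.H373R2.T7 Pool.Agent.U746.AS

lemma PM_nonneg {k : ℕ} (F : Fin k → ℤ[X]) (σ : Fin k → ℤ) (z : ℕ) (a : Fin k → ℕ) (n : ℕ) : 0 ≤ PM F σ z a n :=
  prod_nonneg fun _ _ => LL_nonneg _ _

lemma PM_le {k : ℕ} (F : Fin k → ℤ[X]) (σ : Fin k → ℤ) (z : ℕ) (a : Fin k → ℕ) (n : ℕ) : PM F σ z a n ≤ (Vz z)⁻¹ ^ k := by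
  unfold PM
  calc ∏ i, LL z (vl F σ a i n) ≤ ∏ _i : Fin k, (Vz z)⁻¹ :=
        prod_le_prod (fun _ _ => LL_nonneg _ _) (fun _ _ => LL_le _ _)
    _ = _ := by rw [prod_const, card_univ, Fintype.card_fin]

/-- the primes -/
noncomputable def PQ {k : ℕ} (F : Fin k → ℤ[X]) (σ : Fin k → ℤ) (a : Fin k → ℕ) (n : ℕ) : ℝ :=
  ∏ i, lamP (vl F σ a i n)

set_option maxHeartbeats 1000000 in
open Classical in
theorem l12 {k : ℕ} (F : Fin k → ℤ[X]) (hd : ∀ i, 1 ≤ (F i).natDegree) (hl : ∀ i, 0 < (F i).leadingCoeff)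
    (σ : Fin k → ℤ) (hσ : ∀ i, σ i = 1 ∨ σ i = -1)
    (T : Set ℕ) (C : ℕ) (M : ℝ) (hM : 1 ≤ M) (hT : Reg T C M)
    (B : ℕ) (hB : 1 ≤ B) (ε : ℝ) (hε : 0 < ε) (w : ℕ) (hw3 : 3 ≤ w)
    (hwl : ∀ p : ℕ, w < p → ∀ i, ¬ (p : ℤ) ∣ (F i).leadingCoeff)
    (u1 : ((Vz w)⁻¹ ^ 2) ^ k * (Real.exp (((2 * (3 ^ k * Dg F) : ℕ) : ℝ) / w) - 1) ≤ ε ^ 2 / (64 * M)) :
    ∃ x0 : ℕ, ∀ x : ℕ, x0 ≤ x →
    ∀ c A : Fin k → ℕ, (∀ i, c i + A i ≤ B * x ^ (F i).natDegree ∧ x ^ (F i).natDegree ≤ B * A i) →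
    (∀ i, σ i = -1 → ∀ n : ℕ, 1 ≤ n → n ≤ x → (F i).eval (n : ℤ) ≤ c i) →
    ∀ G : ℕ → ℝ, (∀ n, 0 ≤ G n ∧ G n ≤ 1) →
    ∑ a ∈ box c A, |∑ n ∈ elts T x, G n * (PQ F σ a n - PM F σ w a n)| ≤
      ε * cntS T x * ∏ i, (A i : ℝ) := by
  obtain ⟨B0, hB0⟩ := sys_diffP F hd hl σ hσ B hB (C + 1)
  set E := B0 + 2 with hE
  obtain ⟨N1, h1⟩ := hB0 E
  obtain ⟨N2, h2⟩ := var2 F hd σ hσ T C M hM hT B hB (ε ^ 2 / 16) (by positivity) w hw3 hwl (by
    refine u1.trans (le_of_eq ?_)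
    field_simp
    norm_num) E
  obtain ⟨N3, h3⟩ := ev_L' (w + 2 + 4 * (B ^ 2) ^ k / ε)
  obtain ⟨N4, h4⟩ := Vz_inv_small E
  have hn : ∀ i, ∃ n0 : ℕ, ∀ n : ℕ, n0 ≤ n → 0 ≤ (F i).eval (n : ℤ) := fun i =>
    Pool.Agent.TH882.PA.pos (F i) (hd i) (hl i) 0
  choose n0 hn0 using hn
  set n1 : ℕ := univ.sup n0 with hn1
  obtain ⟨N5, h5⟩ := ev_log' (k + C) (n1 * 4 / ε)
  obtain ⟨N6, h6⟩ := hT 1
  refine ⟨max (max N1 N2) (max (max N3 N4) (max (max N5 N6) 3)), fun x hx c A hA hc G hG => ?_⟩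
  have b1 : N1 ≤ x := le_trans (le_trans (le_max_left _ _) (le_max_left _ _)) hx
  have b2 : N2 ≤ x := le_trans (le_trans (le_max_right _ _) (le_max_left _ _)) hx
  have b3 : N3 ≤ x := le_trans (le_trans (le_trans (le_max_left _ _) (le_max_left _ _)) (le_max_right _ _)) hx
  have b4 : N4 ≤ x := le_trans (le_trans (le_trans (le_max_right _ _) (le_max_left _ _)) (le_max_right _ _)) hx
  have b5 : N5 ≤ x := le_trans (le_trans (le_trans (le_trans (le_max_left _ _) (le_max_left _ _)) (le_max_right _ _)) (le_max_right _ _)) hx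
  have b7 : N6 ≤ x := le_trans (le_trans (le_trans (le_trans (le_max_right _ _) (le_max_left _ _)) (le_max_right _ _)) (le_max_right _ _)) hx
  have b6 : 3 ≤ x := le_trans (le_trans (le_trans (le_max_right _ _) (le_max_right _ _)) (le_max_right _ _)) hx
  have hL := h3 x b3
  have h5' := h5 x b5
  obtain ⟨hNx, -⟩ := h6 x b7
  set L := Real.log x with hLd
  set N : ℝ := (cntS T x : ℝ) with hNd
  have hN0 : 0 ≤ N := Nat.cast_nonneg _
  have hx0 : (0 : ℝ) < x := by exact_mod_cast (by omega : 0 < x)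
  have hw0 : (3 : ℝ) ≤ w := by exact_mod_cast hw3
  have hBr : (1 : ℝ) ≤ B := by exact_mod_cast hB
  have q1 : (0 : ℝ) < 4 * (B ^ 2) ^ k / ε := by positivity
  have hL5 : 5 ≤ L := by linarith
  have hL0 : 0 < L := by linarith
  have hL1 : 1 ≤ L := by linarith
  set z : ℕ := ⌈L ^ (B0 + 1)⌉₊ with hz
  have hz1 : L ^ (B0 + 1) ≤ z := Nat.le_ceil _
  have hLp : L ≤ L ^ (B0 + 1) := le_self_pow₀ hL1 (by omega)
  have hz2 : (z : ℝ) ≤ L ^ E := by
    have h6 := (Nat.ceil_lt_add_one (show 0 ≤ L ^ (B0 + 1) by positivity)).le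
    calc (z : ℝ) ≤ L ^ (B0 + 1) + 1 := h6
      _ ≤ L ^ (B0 + 1) * L := by nlinarith
      _ = L ^ E := by rw [hE]; ring
  have hwz : w ≤ z := by
    have : (w : ℝ) ≤ z := by linarith
    exact_mod_cast this
  have hzB : L ^ B0 ≤ z := (pow_le_pow_right₀ hL1 (by omega)).trans hz1
  have hVz := h4 x b4 z (by omega) hz2
  have hVz0 := Vz_pos z
  set PA : ℝ := ∏ i, (A i : ℝ) with hPA
  have hPA0 : 0 ≤ PA := prod_nonneg fun i _ => Nat.cast_nonneg _
  have hcard : ((box c A).card : ℝ) = PA := card_box c A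
  have hAB : ∀ i, A i ≤ B * x ^ (F i).natDegree ∧ x ^ (F i).natDegree ≤ B * A i := fun i =>
    ⟨(Nat.le_add_left _ _).trans (hA i).1, (hA i).2⟩
  -- first part
  set G1 : ℕ → ℝ := fun n => if n ∈ T then G n else 0 with hG1
  have hG1b : ∀ n ∈ Icc 1 x, |G1 n| ≤ L := by
    intro n _
    rw [hG1]
    simp only
    split_ifs with h
    · rw [abs_of_nonneg (hG n).1]
      linarith [(hG n).2]
    · rw [abs_zero]; linarith
  have c1 := h1 x b1 (fun i => c i + A i) (fun i => ⟨(hA i).1, (hA i).2.trans (Nat.mul_le_mul_left _ (Nat.le_add_left _ _))⟩)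
    z hzB hz2 G1 hG1b
  have hG1s : ∀ f : ℕ → ℝ, ∑ n ∈ elts T x, G n * f n = ∑ n ∈ Icc 1 x, G1 n * f n := by
    intro f
    unfold elts
    rw [sum_filter]
    apply sum_congr rfl
    intro n _
    rw [hG1]
    simp only
    split_ifs <;> simp
  have hboxsub : box c A ⊆ Fintype.piFinset (fun i => Icc 1 (c i + A i)) := by
    unfold box
    apply Fintype.piFinset_subset
    intro i m hm
    rw [mem_Ioc] at hm
    rw [mem_Icc]
    omega
  have c1' : ∑ a ∈ box c A, |∑ n ∈ elts T x, G n * (∏ i, lamP (vl F σ a i n) - ∏ i, lamzI z (vl F σ a i n))| ≤ ε / 4 * N * PA := by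
    have e1 : ∑ a ∈ box c A, |∑ n ∈ elts T x, G n * (∏ i, lamP (vl F σ a i n) - ∏ i, lamzI z (vl F σ a i n))| ≤
        ∑ a ∈ Fintype.piFinset (fun i => Icc 1 (c i + A i)),
          |∑ n ∈ Icc 1 x, G1 n * (∏ i, lamP (vl F σ a i n) - ∏ i, lamzI z (vl F σ a i n))| := by
      simp only [hG1s]
      exact sum_le_sum_of_subset_of_nonneg hboxsub (fun _ _ _ => abs_nonneg _)
    refine e1.trans (c1.trans ?_)
    have e2 : ∏ i, (((c i + A i : ℕ)) : ℝ) ≤ ((B : ℝ) ^ 2) ^ k * PA := by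
      calc ∏ i, (((c i + A i : ℕ)) : ℝ) ≤ ∏ i, ((B : ℝ) ^ 2 * A i) := by
            apply prod_le_prod (fun _ _ => Nat.cast_nonneg _)
            intro i _
            have h7 : ((c i + A i : ℕ) : ℝ) ≤ B * (x : ℝ) ^ (F i).natDegree := by exact_mod_cast (hA i).1
            have h8 : (x : ℝ) ^ (F i).natDegree ≤ B * A i := by exact_mod_cast (hA i).2
            calc ((c i + A i : ℕ) : ℝ) ≤ B * (x : ℝ) ^ (F i).natDegree := h7
              _ ≤ B * (B * A i) := mul_le_mul_of_nonneg_left h8 (by linarith)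
              _ = _ := by ring
        _ = _ := by rw [prod_mul_distrib, prod_const, card_univ, Fintype.card_fin]
    rw [div_le_iff₀ (by positivity)]
    have e3 : (x : ℝ) * ∏ i, (((c i + A i : ℕ)) : ℝ) ≤ (N * L ^ C) * (((B : ℝ) ^ 2) ^ k * PA) :=
      mul_le_mul hNx e2 (prod_nonneg fun _ _ => Nat.cast_nonneg _) (by positivity)
    refine e3.trans ?_
    have e4 : 4 * ((B : ℝ) ^ 2) ^ k ≤ L * ε := by
      rw [← div_le_iff₀ hε]; linarith
    have e5 : ε / 4 * N * PA * L ^ (C + 1) = (N * L ^ C * PA) * (L * ε) / 4 := by rw [pow_succ]; ring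
    have e6 : N * L ^ C * (((B : ℝ) ^ 2) ^ k * PA) = (N * L ^ C * PA) * (4 * ((B : ℝ) ^ 2) ^ k) / 4 := by ring
    rw [e5, e6]
    have e7 : 0 ≤ N * L ^ C * PA := by positivity
    have := mul_le_mul_of_nonneg_left e4 e7
    linarith
  -- third part
  have c3 := h2 x b2 c A hAB z hwz hz2 G hG
  have c3' : ∑ a ∈ box c A, |∑ n ∈ elts T x, G n * (PM F σ z a n - PM F σ w a n)| ≤ ε / 4 * N * PA := by
    have h6 := sq_sum_le_card_mul_sum_sq (s := box c A) (f := fun a => |∑ n ∈ elts T x, G n * (PM F σ z a n - PM F σ w a n)|)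
    simp only [sq_abs] at h6
    have h7 : (∑ a ∈ box c A, |∑ n ∈ elts T x, G n * (PM F σ z a n - PM F σ w a n)|) ^ 2 ≤ (ε / 4 * N * PA) ^ 2 := by
      refine h6.trans ?_
      rw [hcard]
      calc PA * _ ≤ PA * (ε ^ 2 / 16 * N ^ 2 * PA) := mul_le_mul_of_nonneg_left c3 hPA0
        _ = _ := by ring
    exact (abs_le_of_sq_le_sq' h7 (by positivity)).2
  -- second part
  have c2 : ∀ a ∈ box c A, |∑ n ∈ elts T x, G n * (∏ i, lamzI z (vl F σ a i n) - PM F σ z a n)| ≤ ε / 4 * N := by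
    intro a ha
    unfold box at ha
    rw [Fintype.mem_piFinset] at ha
    have h6 : ∀ n ∈ elts T x, |G n * (∏ i, lamzI z (vl F σ a i n) - PM F σ z a n)| ≤
        (if n < n1 then L ^ k else 0) := by
      intro n hnT
      have hnx : 1 ≤ n ∧ n ≤ x := by
        unfold elts at hnT
        rw [mem_filter, mem_Icc] at hnT
        exact hnT.1
      rw [abs_mul, abs_of_nonneg (hG n).1]
      split_ifs with hn
      · have h7 : |∏ i, lamzI z (vl F σ a i n) - PM F σ z a n| ≤ L ^ k := by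
          have h8 : ∏ i, lamzI z (vl F σ a i n) ≤ L ^ k := by
            calc ∏ i, lamzI z (vl F σ a i n) ≤ ∏ _i : Fin k, L :=
                  prod_le_prod (fun _ _ => Pool.Agent.U746.AS.lamzI_nonneg _ _) (fun _ _ => (Pool.Agent.U746.AS.lamzI_le _ _).trans hVz)
              _ = _ := by rw [prod_const, card_univ, Fintype.card_fin]
          have h9 : 0 ≤ ∏ i, lamzI z (vl F σ a i n) := prod_nonneg fun _ _ => Pool.Agent.U746.AS.lamzI_nonneg _ _
          have h10 := PM_nonneg F σ z a n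
          have h11 := (PM_le F σ z a n).trans (pow_le_pow_left₀ (inv_pos.2 hVz0).le hVz k)
          rw [abs_le]
          constructor <;> linarith
        calc G n * |∏ i, lamzI z (vl F σ a i n) - PM F σ z a n| ≤ 1 * L ^ k :=
              mul_le_mul (hG n).2 h7 (abs_nonneg _) zero_le_one
          _ = _ := one_mul _
      · have h7 : ∏ i, lamzI z (vl F σ a i n) = PM F σ z a n := by
          unfold PM
          apply prod_congr rfl
          intro i _
          have h10 := mem_Ioc.1 (ha i)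
          apply lamzI_eq
          unfold vl
          rcases hσ i with h | h
          · have h8 : n0 i ≤ n1 := le_sup (f := n0) (mem_univ i)
            have h9 := hn0 i n (by omega)
            rw [h, one_mul]
            omega
          · have h9 := hc i h n hnx.1 hnx.2
            rw [h]
            have : (c i : ℤ) < a i := by exact_mod_cast h10.1
            linarith
        rw [h7, sub_self, abs_zero, mul_zero]
    refine (abs_sum_le_sum_abs _ _).trans ((sum_le_sum h6).trans ?_)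
    rw [← sum_filter, sum_const, nsmul_eq_mul]
    have h7 : (((elts T x).filter (fun n => n < n1)).card : ℝ) ≤ n1 := by
      have : (elts T x).filter (fun n => n < n1) ⊆ range n1 := by
        intro n hn
        rw [mem_filter] at hn
        exact mem_range.2 hn.2
      exact_mod_cast (card_le_card this).trans (by simp)
    have h8 : √(x : ℝ) ≤ x := by
      have : (1 : ℝ) ≤ x := by exact_mod_cast (by omega : 1 ≤ x)
      rw [Real.sqrt_le_left (by positivity)]; nlinarith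
    have h9 : n1 * L ^ k ≤ ε / 4 * N := by
      have h10 : (n1 * L ^ k) * L ^ C ≤ (ε / 4 * N) * L ^ C := by
        calc (n1 * L ^ k) * L ^ C = ε / 4 * (n1 * 4 / ε * L ^ (k + C)) := by rw [pow_add]; field_simp
          _ ≤ ε / 4 * x := mul_le_mul_of_nonneg_left (h5'.trans h8) (by positivity)
          _ ≤ ε / 4 * (N * L ^ C) := mul_le_mul_of_nonneg_left hNx (by positivity)
          _ = _ := by ring
      exact le_of_mul_le_mul_right h10 (by positivity)
    calc (((elts T x).filter (fun n => n < n1)).card : ℝ) * L ^ k ≤ n1 * L ^ k :=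
          mul_le_mul_of_nonneg_right h7 (by positivity)
      _ ≤ _ := h9
  have hpt : ∀ a ∈ box c A, |∑ n ∈ elts T x, G n * (PQ F σ a n - PM F σ w a n)| ≤
      |∑ n ∈ elts T x, G n * (∏ i, lamP (vl F σ a i n) - ∏ i, lamzI z (vl F σ a i n))| +
      ε / 4 * N + |∑ n ∈ elts T x, G n * (PM F σ z a n - PM F σ w a n)| := by
    intro a ha
    have h6 : ∑ n ∈ elts T x, G n * (PQ F σ a n - PM F σ w a n) =
        ∑ n ∈ elts T x, G n * (∏ i, lamP (vl F σ a i n) - ∏ i, lamzI z (vl F σ a i n)) +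
        ∑ n ∈ elts T x, G n * (∏ i, lamzI z (vl F σ a i n) - PM F σ z a n) +
        ∑ n ∈ elts T x, G n * (PM F σ z a n - PM F σ w a n) := by
      rw [← sum_add_distrib, ← sum_add_distrib]
      apply sum_congr rfl
      intro n _
      unfold PQ
      ring
    rw [h6]
    refine (abs_add_le _ _).trans (add_le_add_left ?_ _)
    exact (abs_add_le _ _).trans (add_le_add_right (c2 a ha) _)
  refine (sum_le_sum hpt).trans ?_
  rw [sum_add_distrib, sum_add_distrib, sum_const, nsmul_eq_mul, hcard]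
  have h8 : 0 ≤ ε * N * PA := by positivity
  nlinarith

end Pool.Agent.U746.AP
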