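import Pool.Agent.U746.AS.Equi

/-! Upper regular sets of arguments, and the sum of the comparison factors over the elements of such a set. -/

set_option autoImplicit false

namespace Pool.Agent.U746.AP
open Finset Polynomial
open Pool.Agent.H373R2.T7 Pool.Agent.U746.AS

/-- upper regular sets: at least `x / (log x) ^ C` elements up to `x`, and at most `M * 2 ^ ω(d) / d` of them in every
residue class modulo `d`, for the squarefree `d` up to any power of `log x` -/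
def Reg (T : Set ℕ) (C : ℕ) (M : ℝ) : Prop := ∀ D : ℕ, ∃ x0 : ℕ, ∀ x : ℕ, x0 ≤ x →
  (x : ℝ) ≤ cntS T x * Real.log x ^ C ∧ ∀ t : Finset ℕ, (∀ p ∈ t, p.Prime) → (∏ p ∈ t, (p : ℝ)) ≤ Real.log x ^ D →
    ∀ r : ℕ, (cntSq T (∏ p ∈ t, p) r x : ℝ) ≤ M * cntS T x * ∏ p ∈ t, (2 / (p : ℝ))

open Classical in
/-- the elements of a set up to `x` -/
noncomputable def elts (T : Set ℕ) (x : ℕ) : Finset ℕ := (Icc 1 x).filter (fun n : ℕ => n ∈ T)

lemma card_elts (T : Set ℕ) (x : ℕ) : (elts T x).card = cntS T x := rfl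

/-- counting in prescribed classes -/
lemma count_cls (T : Set ℕ) (Q : ℕ → ℕ → Prop) [∀ p a, Decidable (Q p a)] (x : ℕ) (t : Finset ℕ) (htp : ∀ p ∈ t, p.Prime) (Y : ℝ)
    (hY : ∀ r : ℕ, (cntSq T (∏ p ∈ t, p) r x : ℝ) ≤ Y) :
    (((elts T x).filter (fun n : ℕ => ∀ p ∈ t, Q p (n % p))).card : ℝ) ≤
      (∏ p ∈ t, (((range p).filter (fun a : ℕ => Q p a)).card : ℝ)) * Y := by
  set P : ℕ := ∏ p ∈ t, p with hP
  have hP0 : 0 < P := prod_pos fun p hp => (htp p hp).pos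
  have hmap : ∀ n ∈ (elts T x).filter (fun n : ℕ => ∀ p ∈ t, Q p (n % p)),
      n % P ∈ (range P).filter (fun n => ∀ p ∈ t, Q p (n % p)) := by
    intro n hn
    rw [mem_filter] at hn ⊢
    refine ⟨mem_range.2 (Nat.mod_lt _ hP0), fun p hp => ?_⟩
    rw [Nat.mod_mod_of_dvd _ (dvd_prod_of_mem _ hp)]
    exact hn.2 p hp
  rw [card_eq_sum_card_fiberwise (f := fun n => n % P) (t := (range P).filter (fun n => ∀ p ∈ t, Q p (n % p)))
    (fun n hn => by exact_mod_cast hmap n hn)]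
  push_cast
  have h1 : ∀ r ∈ (range P).filter (fun n => ∀ p ∈ t, Q p (n % p)),
      (((((elts T x).filter (fun n : ℕ => ∀ p ∈ t, Q p (n % p))).filter (fun n => n % P = r)).card : ℕ) : ℝ) ≤ Y := by
    intro r hr
    rw [mem_filter, mem_range] at hr
    refine le_trans ?_ (hY r)
    apply Nat.cast_le.2
    unfold cntSq elts
    apply card_le_card
    intro n hn
    simp only [mem_filter] at hn ⊢
    refine ⟨hn.1.1.1, hn.1.1.2, ?_⟩
    unfold Nat.ModEq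
    rw [Nat.mod_eq_of_lt hr.1]
    exact hn.2
  refine (sum_le_sum h1).trans (le_of_eq ?_)
  rw [sum_const, nsmul_eq_mul, hP, crt_card Q t htp]
  push_cast
  rfl

open Classical in
/-- the sum of the factors over the elements of a regular set -/
theorem gam_reg {k : ℕ} (F : Fin k → ℤ[X]) (hd : ∀ i, 1 ≤ (F i).natDegree) (w : ℕ) (hw1 : 1 ≤ w)
    (hw : ∀ p : ℕ, w < p → ∀ i, ¬ (p : ℤ) ∣ (F i).leadingCoeff) (T : Set ℕ) (C : ℕ) (M : ℝ) (hM : 1 ≤ M)
    (hT : Reg T C M) (C3 E : ℕ) : ∃ x0 : ℕ, ∀ x : ℕ, x0 ≤ x → ∀ z : ℕ, w ≤ z → (z : ℝ) ≤ Real.log x ^ E →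
    ∀ v : Fin k → ℤ,
    ∑ n ∈ elts T x, (∏ p ∈ PP w z, (1 + (if ∃ i, (p : ℤ) ∣ (F i).eval (n : ℤ) - v i then (C3 : ℝ) / (p : ℝ) else 0)) - 1) ≤
      cntS T x * (M * (Real.exp (((2 * (C3 * Dg F) : ℕ) : ℝ) / w) - 1) + 2 / Real.log x) := by
  set K : ℕ := C3 * Dg F with hK
  set D0 : ℕ := K + C + 1 with hD0
  obtain ⟨x1, h1⟩ := hT D0
  obtain ⟨x2, h2⟩ := Vz_inv_small E
  obtain ⟨x3, h3⟩ := ev_L' 1
  obtain ⟨x4, h4⟩ := ev_log' (K + 1 + C) 1
  refine ⟨max (max x1 x2) (max (max x3 x4) 3), fun x hx z hwz hz v => ?_⟩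
  have b1 : x1 ≤ x := le_trans (le_trans (le_max_left _ _) (le_max_left _ _)) hx
  have b2 : x2 ≤ x := le_trans (le_trans (le_max_right _ _) (le_max_left _ _)) hx
  have b3 : x3 ≤ x := le_trans (le_trans (le_trans (le_max_left _ _) (le_max_left _ _)) (le_max_right _ _)) hx
  have b4 : x4 ≤ x := le_trans (le_trans (le_trans (le_max_right _ _) (le_max_left _ _)) (le_max_right _ _)) hx
  have b5 : 3 ≤ x := le_trans (le_trans (le_max_right _ _) (le_max_right _ _)) hx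
  obtain ⟨hN, hcls⟩ := h1 x b1
  have hVz := h2 x b2 z (by omega) hz
  have hL1 := h3 x b3
  have hsq := h4 x b4
  set L := Real.log x with hLd
  set N : ℝ := (cntS T x : ℝ) with hNd
  have hL0 : 0 < L := by linarith
  have hx0 : (0 : ℝ) < x := by exact_mod_cast (by omega : 0 < x)
  have hx1 : (1 : ℝ) ≤ x := by exact_mod_cast (by omega : 1 ≤ x)
  have hN0 : 0 ≤ N := Nat.cast_nonneg _
  -- expansion
  have hexp : ∀ n ∈ elts T x, ∏ p ∈ PP w z, (1 + (if ∃ i, (p : ℤ) ∣ (F i).eval (n : ℤ) - v i then (C3 : ℝ) / (p : ℝ) else 0)) - 1 =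
      ∑ t ∈ (PP w z).powerset.erase ∅, (if ∀ p ∈ t, ∃ i, (p : ℤ) ∣ (F i).eval (n : ℤ) - v i then ∏ p ∈ t, ((C3 : ℝ) / (p : ℝ)) else 0) := by
    intro n _
    rw [prod_one_add, ← add_sum_erase _ _ (empty_mem_powerset (PP w z)), prod_empty, add_sub_cancel_left]
    apply sum_congr rfl
    intro t _
    split_ifs with h
    · apply prod_congr rfl
      intro p hp
      rw [if_pos (h p hp)]
    · push Not at h
      obtain ⟨p, hp, hi⟩ := h
      apply prod_eq_zero hp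
      rw [if_neg (by push Not; exact hi)]
  rw [sum_congr rfl hexp, sum_comm]
  -- the bad classes
  have hmodn : ∀ (n p : ℕ) (i : Fin k), (p : ℤ) ∣ (F i).eval ((n % p : ℕ) : ℤ) - v i ↔ (p : ℤ) ∣ (F i).eval (n : ℤ) - v i := by
    intro n p i
    have h5 := Pool.Agent.TH882.PA.eval_congr (F i) p n
    have h6 : (F i).eval (n : ℤ) - v i = ((F i).eval ((n % p : ℕ) : ℤ) - v i) +
      ((F i).eval (n : ℤ) - (F i).eval ((n % p : ℕ) : ℤ)) := by ring
    rw [h6]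
    exact (Int.dvd_add_left h5).symm
  have hbad : ∀ (n : ℕ) (t : Finset ℕ), (∀ p ∈ t, ∃ i, (p : ℤ) ∣ (F i).eval (n : ℤ) - v i) ↔
      ∀ p ∈ t, ∃ i, (p : ℤ) ∣ (F i).eval ((n % p : ℕ) : ℤ) - v i := by
    intro n t
    constructor
    · intro h p hp
      obtain ⟨i, hi⟩ := h p hp
      exact ⟨i, (hmodn n p i).2 hi⟩
    · intro h p hp
      obtain ⟨i, hi⟩ := h p hp
      exact ⟨i, (hmodn n p i).1 hi⟩
  have hrho : ∀ t ∈ (PP w z).powerset, ∏ p ∈ t, (((range p).filter (fun a : ℕ => ∃ i, (p : ℤ) ∣ (F i).eval (a : ℤ) - v i)).card : ℝ) ≤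
      ∏ _p ∈ t, (Dg F : ℝ) := by
    intro t ht
    rw [mem_powerset] at ht
    apply prod_le_prod (fun _ _ => Nat.cast_nonneg _)
    intro p hp
    have hpP := mem_PP.1 (ht hp)
    exact_mod_cast rho_le F hd p hpP.1.2 (hw p hpP.2) v
  -- the count, small moduli
  have hsmall : ∀ t ∈ (PP w z).powerset, (∏ p ∈ t, (p : ℝ)) ≤ L ^ D0 →
      (((elts T x).filter (fun n : ℕ => ∀ p ∈ t, ∃ i, (p : ℤ) ∣ (F i).eval (n : ℤ) - v i)).card : ℝ) ≤
        (∏ _p ∈ t, (Dg F : ℝ)) * (M * N * ∏ p ∈ t, (2 / (p : ℝ))) := by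
    intro t ht htL
    have ht' := mem_powerset.1 ht
    have htp : ∀ p ∈ t, p.Prime := fun p hp => (mem_PP.1 (ht' hp)).1.2
    have h5 := count_cls T (fun p a => ∃ i, (p : ℤ) ∣ (F i).eval (a : ℤ) - v i) x t htp _ (hcls t htp htL)
    have e1 : (elts T x).filter (fun n : ℕ => ∀ p ∈ t, ∃ i, (p : ℤ) ∣ (F i).eval (n : ℤ) - v i) =
        (elts T x).filter (fun n : ℕ => ∀ p ∈ t, ∃ i, (p : ℤ) ∣ (F i).eval ((n % p : ℕ) : ℤ) - v i) := by
      apply filter_congr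
      intro n _
      exact hbad n t
    rw [e1]
    refine h5.trans ?_
    apply mul_le_mul_of_nonneg_right (hrho t ht)
    apply mul_nonneg (by positivity)
    exact prod_nonneg fun p _ => by positivity
  -- the count, all moduli
  have hlarge : ∀ t ∈ (PP w z).powerset,
      (((elts T x).filter (fun n : ℕ => ∀ p ∈ t, ∃ i, (p : ℤ) ∣ (F i).eval (n : ℤ) - v i)).card : ℝ) ≤
        x * ∏ p ∈ t, ((Dg F : ℝ) / p) + ∏ _p ∈ t, (Dg F : ℝ) := by
    intro t ht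
    have ht' := mem_powerset.1 ht
    have htp : ∀ p ∈ t, p.Prime := fun p hp => (mem_PP.1 (ht' hp)).1.2
    have h5 := count_sys (fun p a => ∃ i, (p : ℤ) ∣ (F i).eval (a : ℤ) - v i) x t htp 1 le_rfl
      (fun p hp h => (htp p hp).one_lt.ne' (Nat.dvd_one.1 h)) 0
    have h6 : ((elts T x).filter (fun n : ℕ => ∀ p ∈ t, ∃ i, (p : ℤ) ∣ (F i).eval (n : ℤ) - v i)).card ≤
        ((Icc 1 x).filter (fun n : ℕ => n ≡ 0 [MOD 1] ∧ ∀ p ∈ t, ∃ i, (p : ℤ) ∣ (F i).eval ((n % p : ℕ) : ℤ) - v i)).card := by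
      apply card_le_card
      intro n hn
      unfold elts at hn
      simp only [mem_filter] at hn ⊢
      exact ⟨hn.1.1, Nat.modEq_one, (hbad n t).1 hn.2⟩
    have h4 := (abs_le.1 h5).2
    have h7 : (x : ℝ) / ((1 : ℕ) : ℝ) = x := by simp
    rw [h7] at h4
    have h8 : ∏ p ∈ t, ((((range p).filter (fun a : ℕ => ∃ i, (p : ℤ) ∣ (F i).eval (a : ℤ) - v i)).card : ℝ) / p) ≤
        ∏ p ∈ t, ((Dg F : ℝ) / p) := by
      apply prod_le_prod
      · intro p _; positivity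
      · intro p hp
        have hpP := mem_PP.1 (ht' hp)
        have : (((range p).filter (fun a : ℕ => ∃ i, (p : ℤ) ∣ (F i).eval (a : ℤ) - v i)).card : ℝ) ≤ Dg F := by
          exact_mod_cast rho_le F hd p hpP.1.2 (hw p hpP.2) v
        exact div_le_div_of_nonneg_right this (by positivity)
    have h9 := mul_le_mul_of_nonneg_left h8 hx0.le
    have h10 := hrho t ht
    have h11 : (((elts T x).filter (fun n : ℕ => ∀ p ∈ t, ∃ i, (p : ℤ) ∣ (F i).eval (n : ℤ) - v i)).card : ℝ) ≤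
        ((((Icc 1 x).filter (fun n : ℕ => n ≡ 0 [MOD 1] ∧ ∀ p ∈ t, ∃ i, (p : ℤ) ∣ (F i).eval ((n % p : ℕ) : ℤ) - v i)).card : ℕ) : ℝ) := by
      exact_mod_cast h6
    linarith
  -- the terms
  have hterm : ∀ t ∈ (PP w z).powerset.erase ∅,
      ∑ n ∈ elts T x, (if ∀ p ∈ t, ∃ i, (p : ℤ) ∣ (F i).eval (n : ℤ) - v i then ∏ p ∈ t, ((C3 : ℝ) / (p : ℝ)) else 0) ≤
      M * N * ∏ p ∈ t, (((2 * K : ℕ) : ℝ) / (p : ℝ) ^ 2) + (x / L ^ D0 + 1) * ∏ p ∈ t, ((K : ℝ) / (p : ℝ)) := by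
    intro t ht
    rw [mem_erase] at ht
    obtain ⟨-, ht⟩ := ht
    have ht' := mem_powerset.1 ht
    have htp : ∀ p ∈ t, p.Prime := fun p hp => (mem_PP.1 (ht' hp)).1.2
    rw [← sum_filter, sum_const, nsmul_eq_mul]
    have c0 : 0 ≤ ∏ p ∈ t, ((C3 : ℝ) / (p : ℝ)) := prod_nonneg fun p _ => by positivity
    have c1 : 0 ≤ ∏ p ∈ t, ((K : ℝ) / (p : ℝ)) := prod_nonneg fun p _ => by positivity
    have c2 : 0 ≤ M * N * ∏ p ∈ t, (((2 * K : ℕ) : ℝ) / (p : ℝ) ^ 2) := by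
      apply mul_nonneg (by positivity)
      exact prod_nonneg fun p _ => by positivity
    have c3 : 0 ≤ (x / L ^ D0 + 1) * ∏ p ∈ t, ((K : ℝ) / (p : ℝ)) := mul_nonneg (by positivity) c1
    rcases le_or_gt (∏ p ∈ t, (p : ℝ)) (L ^ D0) with htL | htL
    · refine (mul_le_mul_of_nonneg_right (hsmall t ht htL) c0).trans ?_
      have e1 : (∏ _p ∈ t, (Dg F : ℝ)) * (M * N * ∏ p ∈ t, (2 / (p : ℝ))) * ∏ p ∈ t, ((C3 : ℝ) / (p : ℝ)) =
          M * N * ∏ p ∈ t, (((2 * K : ℕ) : ℝ) / (p : ℝ) ^ 2) := by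
        have e2 : ∏ p ∈ t, (((2 * K : ℕ) : ℝ) / (p : ℝ) ^ 2) =
            (∏ _p ∈ t, (Dg F : ℝ)) * (∏ p ∈ t, (2 / (p : ℝ))) * ∏ p ∈ t, ((C3 : ℝ) / (p : ℝ)) := by
          rw [← prod_mul_distrib, ← prod_mul_distrib]
          apply prod_congr rfl
          intro p _
          rw [hK]; push_cast; ring
        rw [e2]; ring
      rw [e1]
      linarith
    · refine (mul_le_mul_of_nonneg_right (hlarge t ht) c0).trans ?_
      have hP0 : (0 : ℝ) < ∏ p ∈ t, (p : ℝ) := prod_pos fun p hp => by exact_mod_cast (htp p hp).pos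
      have e1 : (x * ∏ p ∈ t, ((Dg F : ℝ) / p) + ∏ _p ∈ t, (Dg F : ℝ)) * ∏ p ∈ t, ((C3 : ℝ) / (p : ℝ)) =
          (x / (∏ p ∈ t, (p : ℝ)) + 1) * ∏ p ∈ t, ((K : ℝ) / (p : ℝ)) := by
        have e2 : ∏ p ∈ t, ((K : ℝ) / (p : ℝ)) = (∏ _p ∈ t, (Dg F : ℝ)) * ∏ p ∈ t, ((C3 : ℝ) / (p : ℝ)) := by
          rw [← prod_mul_distrib]
          apply prod_congr rfl
          intro p _
          rw [hK]; push_cast; ring
        have e3 : ∏ p ∈ t, ((Dg F : ℝ) / p) = (∏ _p ∈ t, (Dg F : ℝ)) / ∏ p ∈ t, (p : ℝ) := by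
          rw [prod_div_distrib]
        rw [e2, e3]; ring
      rw [e1]
      have h5 : (x : ℝ) / (∏ p ∈ t, (p : ℝ)) ≤ x / L ^ D0 :=
        div_le_div_of_nonneg_left hx0.le (by positivity) htL.le
      have h6 := mul_le_mul_of_nonneg_right (add_le_add_left h5 1) c1
      linarith
  refine (sum_le_sum hterm).trans ?_
  rw [sum_add_distrib, ← mul_sum, ← mul_sum]
  have s1 : ∑ t ∈ (PP w z).powerset.erase ∅, ∏ p ∈ t, (((2 * K : ℕ) : ℝ) / (p : ℝ) ^ 2) ≤ Real.exp (((2 * K : ℕ) : ℝ) / w) - 1 := by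
    have h5 := prod_sq_le w z hw1 ((2 * K : ℕ) : ℝ) (Nat.cast_nonneg _)
    rw [prod_one_add, ← add_sum_erase _ _ (empty_mem_powerset (PP w z)), prod_empty] at h5
    linarith
  have s2 : ∑ t ∈ (PP w z).powerset.erase ∅, ∏ p ∈ t, ((K : ℝ) / (p : ℝ)) ≤ L ^ K := by
    have h5 := (prod_one_le w z K).trans (pow_le_pow_left₀ (inv_pos.2 (Vz_pos z)).le hVz K)
    rw [prod_one_add, ← add_sum_erase _ _ (empty_mem_powerset (PP w z)), prod_empty] at h5
    linarith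
  have s3 : 0 ≤ ∑ t ∈ (PP w z).powerset.erase ∅, ∏ p ∈ t, ((K : ℝ) / (p : ℝ)) :=
    sum_nonneg fun t _ => prod_nonneg fun p _ => by positivity
  have s4 : (x : ℝ) / L ^ D0 * L ^ K ≤ N / L := by
    rw [hD0]
    have e1 : L ^ (K + C + 1) = L ^ K * L ^ C * L := by rw [pow_add, pow_add, pow_one]
    rw [e1]
    have e2 : (x : ℝ) / (L ^ K * L ^ C * L) * L ^ K = (x / L ^ C) / L := by field_simp
    rw [e2]
    apply div_le_div_of_nonneg_right _ hL0.le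
    rw [div_le_iff₀ (by positivity)]
    exact hN
  have s5 : L ^ K ≤ N / L := by
    rw [le_div_iff₀ hL0]
    have h5 : L ^ K * L * L ^ C ≤ N * L ^ C := by
      have e1 : L ^ K * L * L ^ C = 1 * L ^ (K + 1 + C) := by rw [pow_add, pow_add, pow_one, one_mul]
      rw [e1]
      have h6 : √(x : ℝ) ≤ x := by
        rw [Real.sqrt_le_left (by positivity)]; nlinarith
      linarith
    exact le_of_mul_le_mul_right h5 (by positivity)
  have s6 : (x / L ^ D0 + 1) * ∑ t ∈ (PP w z).powerset.erase ∅, ∏ p ∈ t, ((K : ℝ) / (p : ℝ)) ≤ N / L + N / L := by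
    calc (x / L ^ D0 + 1) * ∑ t ∈ (PP w z).powerset.erase ∅, ∏ p ∈ t, ((K : ℝ) / (p : ℝ)) ≤ (x / L ^ D0 + 1) * L ^ K :=
          mul_le_mul_of_nonneg_left s2 (by positivity)
      _ = x / L ^ D0 * L ^ K + L ^ K := by ring
      _ ≤ _ := add_le_add s4 s5
  have s7 := mul_le_mul_of_nonneg_left s1 (show 0 ≤ M * N by positivity)
  have e3 : N * (M * (Real.exp (((2 * K : ℕ) : ℝ) / w) - 1) + 2 / L) =
      M * N * (Real.exp (((2 * K : ℕ) : ℝ) / w) - 1) + (N / L + N / L) := by ring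
  rw [e3]
  linarith

end Pool.Agent.U746.AP
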