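import Pool.Agent.U746.AP.Reg

/-! The second moment of the difference of two sieve models over the shifts, with weights on a regular set. -/

set_option autoImplicit false

namespace Pool.Agent.U746.AP
open Finset Polynomial
open Pool.Agent.H373R2.T7 Pool.Agent.U746.AS

/-- the box of the shifts -/
def box {k : ℕ} (c A : Fin k → ℕ) : Finset (Fin k → ℕ) := Fintype.piFinset (fun i => Ioc (c i) (c i + A i))

/-- the values of the model -/
noncomputable def PM {k : ℕ} (F : Fin k → ℤ[X]) (σ : Fin k → ℤ) (z : ℕ) (a : Fin k → ℕ) (n : ℕ) : ℝ :=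
  ∏ i, LL z (vl F σ a i n)

lemma card_box {k : ℕ} (c A : Fin k → ℕ) : ((box c A).card : ℝ) = ∏ i, (A i : ℝ) := by
  unfold box
  rw [Fintype.card_piFinset]
  push_cast
  apply prod_congr rfl
  intro i _
  simp

lemma corr_prod' {k : ℕ} (F : Fin k → ℤ[X]) (σ : Fin k → ℤ) (c A : Fin k → ℕ) (y z n m : ℕ) :
    ∑ a ∈ box c A, PM F σ y a n * PM F σ z a m =
      ∏ i, ∑ a ∈ Ioc (c i) (c i + A i), LL y ((a : ℤ) + σ i * (F i).eval (n : ℤ)) * LL z ((a : ℤ) + σ i * (F i).eval (m : ℤ)) := by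
  unfold box
  rw [prod_univ_sum]
  apply sum_congr rfl
  intro a _
  unfold PM vl
  rw [prod_mul_distrib]

lemma sum_shift (c A : ℕ) (f : ℕ → ℝ) : ∑ a ∈ Ioc c (c + A), f a = ∑ a ∈ Icc 1 A, f (a + c) := by
  symm
  apply sum_nbij (fun a => a + c)
  · intro a ha
    rw [mem_Icc] at ha
    rw [mem_Ioc]
    omega
  · intro a _ b _ h
    exact Nat.add_right_cancel h
  · intro b hb
    rw [mem_coe, mem_Ioc] at hb
    refine ⟨b - c, ?_, ?_⟩
    · rw [mem_coe, mem_Icc]; omega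
    · show b - c + c = b
      omega
  · intro a _; rfl

/-- pair correlations over an interval -/
lemma corrI (E U : ℕ) : ∃ N0 : ℕ, ∀ A : ℕ, N0 ≤ A → ∀ c w z : ℕ, 1 ≤ w → w ≤ z → (z : ℝ) ≤ Real.log A ^ E →
    ∀ u v : ℤ, |∑ a ∈ Ioc c (c + A), LL z (a + u) * LL w (a + v) - A * hh w u v| ≤ A / Real.log A ^ U := by
  obtain ⟨N0, h0⟩ := corr E U
  refine ⟨N0, fun A hA c w z hw hwz hz u v => ?_⟩
  have h1 := h0 A hA w z hw hwz hz (c + u) (c + v)
  rw [sum_shift]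
  have e1 : ∑ a ∈ Icc 1 A, LL z ((a + c : ℕ) + u) * LL w ((a + c : ℕ) + v) =
      ∑ a ∈ Icc 1 A, LL z (a + (c + u)) * LL w (a + (c + v)) := by
    apply sum_congr rfl
    intro a _
    have e2 : ((a + c : ℕ) : ℤ) + u = (a : ℤ) + (c + u) := by push_cast; ring
    have e3 : ((a + c : ℕ) : ℤ) + v = (a : ℤ) + (c + v) := by push_cast; ring
    rw [e2, e3]
  have e4 : hh w (c + u) (c + v) = hh w u v := by
    unfold hh nu
    congr 1
    apply prod_congr rfl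
    intro p _
    have : (c + u : ℤ) - (c + v) = u - v := by ring
    rw [this]
  rw [e1, ← e4]
  exact h1

set_option maxHeartbeats 1000000 in
open Classical in
theorem var2 {k : ℕ} (F : Fin k → ℤ[X]) (hd : ∀ i, 1 ≤ (F i).natDegree) (σ : Fin k → ℤ) (hσ : ∀ i, σ i = 1 ∨ σ i = -1)
    (T : Set ℕ) (C : ℕ) (M : ℝ) (hM : 1 ≤ M) (hT : Reg T C M)
    (B : ℕ) (hB : 1 ≤ B) (ε : ℝ) (hε : 0 < ε) (w : ℕ) (hw3 : 3 ≤ w)
    (hwl : ∀ p : ℕ, w < p → ∀ i, ¬ (p : ℤ) ∣ (F i).leadingCoeff)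
    (u1 : ((Vz w)⁻¹ ^ 2) ^ k * (Real.exp (((2 * (3 ^ k * Dg F) : ℕ) : ℝ) / w) - 1) ≤ ε / (4 * M)) (E : ℕ) :
    ∃ x0 : ℕ, ∀ x : ℕ, x0 ≤ x →
    ∀ c A : Fin k → ℕ, (∀ i, A i ≤ B * x ^ (F i).natDegree ∧ x ^ (F i).natDegree ≤ B * A i) →
    ∀ z : ℕ, w ≤ z → (z : ℝ) ≤ Real.log x ^ E → ∀ G : ℕ → ℝ, (∀ n, 0 ≤ G n ∧ G n ≤ 1) →
    ∑ a ∈ box c A, (∑ n ∈ elts T x, G n * (PM F σ z a n - PM F σ w a n)) ^ 2 ≤
      ε * (cntS T x : ℝ) ^ 2 * ∏ i, (A i : ℝ) := by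
  set K : ℕ := 3 ^ k * Dg F with hK
  set D : ℕ := univ.sup (fun i => (F i).natDegree) with hD
  set U : ℕ := 2 * k + 2 with hU
  obtain ⟨N1, h1⟩ := corrI (E + 1) U
  obtain ⟨N2, h2⟩ := size_log D B hB
  obtain ⟨N3, h3⟩ := ev_L' (2 * 2 ^ E + 2 * (16 * k * 2 ^ (3 * k + 2) / ε) + 4)
  obtain ⟨N4, h4⟩ := Vz_inv_small E
  obtain ⟨N5, h5⟩ := gam_reg F hd w (by omega) hwl T C M hM hT (3 ^ k) E
  obtain ⟨N6, h6⟩ := ev_L' (8 * ((Vz w)⁻¹ ^ 2) ^ k / ε)
  refine ⟨max (max (B * N1) N2) (max (max N3 N4) (max (max N5 N6) 3)), fun x hx c A hA z hwz hz G hG => ?_⟩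
  have b1 : B * N1 ≤ x := le_trans (le_trans (le_max_left _ _) (le_max_left _ _)) hx
  have b2 : N2 ≤ x := le_trans (le_trans (le_max_right _ _) (le_max_left _ _)) hx
  have b3 : N3 ≤ x := le_trans (le_trans (le_trans (le_max_left _ _) (le_max_left _ _)) (le_max_right _ _)) hx
  have b4 : N4 ≤ x := le_trans (le_trans (le_trans (le_max_right _ _) (le_max_left _ _)) (le_max_right _ _)) hx
  have b5 : N5 ≤ x := le_trans (le_trans (le_trans (le_trans (le_max_left _ _) (le_max_left _ _)) (le_max_right _ _)) (le_max_right _ _)) hx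
  have b7 : N6 ≤ x := le_trans (le_trans (le_trans (le_trans (le_max_right _ _) (le_max_left _ _)) (le_max_right _ _)) (le_max_right _ _)) hx
  have b6 : 3 ≤ x := le_trans (le_trans (le_trans (le_max_right _ _) (le_max_right _ _)) (le_max_right _ _)) hx
  have hL := h3 x b3
  have hL6 := h6 x b7
  have hVz := h4 x b4 z (by omega) hz
  have hVw := h4 x b4 w (by omega) (le_trans (by exact_mod_cast hwz) hz)
  have h5' := h5 x b5 z hwz hz
  set L := Real.log x with hLd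
  set N : ℝ := (cntS T x : ℝ) with hNd
  have hN0 : 0 ≤ N := Nat.cast_nonneg _
  have hx0 : (0 : ℝ) < x := by exact_mod_cast (by omega : 0 < x)
  have q1 : (0 : ℝ) < 2 ^ E := by positivity
  have q2 : (0 : ℝ) ≤ 16 * k * 2 ^ (3 * k + 2) / ε := by positivity
  have hL4 : 4 ≤ L := by linarith
  have hL0 : 0 < L := by linarith
  have hL1 : 1 ≤ L := by linarith
  have hVz0 := Vz_pos z
  have hVw0 := Vz_pos w
  -- sizes
  have hsz : ∀ i, L / 2 ≤ Real.log (A i) ∧ N1 ≤ A i ∧ 0 < A i := by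
    intro i
    have hdi : (F i).natDegree ≤ D := le_sup (f := fun i => (F i).natDegree) (mem_univ i)
    obtain ⟨s1, s2, s3⟩ := h2 x b2 (F i).natDegree (A i) (hd i) hdi (hA i).1 (hA i).2
    have s4 : N1 ≤ A i := by
      have : B * N1 ≤ B * A i := b1.trans s3
      exact Nat.le_of_mul_le_mul_left this (by omega)
    refine ⟨s1, s4, ?_⟩
    rcases Nat.eq_zero_or_pos (A i) with h | h
    · rw [h, mul_zero] at s3; omega
    · exact h
  set δ : ℝ := (2 / L) ^ U with hδ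
  have hδ0 : 0 ≤ δ := by positivity
  have hδ1 : δ ≤ 1 := by
    apply pow_le_one₀ (by positivity)
    rw [div_le_one hL0]; linarith
  have hcorr : ∀ i, ∀ y₁ y₂ : ℕ, 1 ≤ y₂ → y₂ ≤ y₁ → (y₁ : ℝ) ≤ L ^ E → ∀ u v : ℤ,
      |(∑ a ∈ Ioc (c i) (c i + A i), LL y₁ ((a : ℤ) + u) * LL y₂ ((a : ℤ) + v)) / A i - hh y₂ u v| ≤ δ := by
    intro i y₁ y₂ hy hy12 hyE u v
    obtain ⟨s1, s2, s3⟩ := hsz i
    have hA0 : (0 : ℝ) < A i := by exact_mod_cast s3
    have hlA : 2 ^ E ≤ Real.log (A i) := by linarith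
    have hlA0 : 0 < Real.log (A i) := by linarith
    have hy1 : (y₁ : ℝ) ≤ Real.log (A i) ^ (E + 1) := by
      calc (y₁ : ℝ) ≤ L ^ E := hyE
        _ ≤ (2 * Real.log (A i)) ^ E := pow_le_pow_left₀ hL0.le (by linarith) _
        _ = 2 ^ E * Real.log (A i) ^ E := mul_pow _ _ _
        _ ≤ Real.log (A i) * Real.log (A i) ^ E := mul_le_mul_of_nonneg_right hlA (by positivity)
        _ = _ := by ring
    have k1 := h1 (A i) s2 (c i) y₂ y₁ hy hy12 hy1 u v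
    have e1 : (∑ a ∈ Ioc (c i) (c i + A i), LL y₁ ((a : ℤ) + u) * LL y₂ ((a : ℤ) + v)) / A i - hh y₂ u v =
        (∑ a ∈ Ioc (c i) (c i + A i), LL y₁ ((a : ℤ) + u) * LL y₂ ((a : ℤ) + v) - A i * hh y₂ u v) / A i := by
      field_simp
    rw [e1, abs_div, abs_of_pos hA0, div_le_iff₀ hA0]
    refine k1.trans ?_
    have h6 : 1 / Real.log (A i) ^ U ≤ δ := by
      rw [hδ, div_pow, div_le_div_iff₀ (by positivity) (by positivity), one_mul]
      calc L ^ U ≤ (2 * Real.log (A i)) ^ U := pow_le_pow_left₀ hL0.le (by linarith) _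
        _ = _ := mul_pow _ _ _
    calc (A i : ℝ) / Real.log (A i) ^ U = 1 / Real.log (A i) ^ U * A i := by ring
      _ ≤ δ * A i := mul_le_mul_of_nonneg_right h6 hA0.le
  set PA : ℝ := ∏ i, (A i : ℝ) with hPA
  have hPA0 : 0 < PA := prod_pos fun i _ => by exact_mod_cast (hsz i).2.2
  set e : ℝ := k * (L ^ 2 + 1) ^ k * δ with he
  have hzE : (z : ℝ) ≤ L ^ E := hz
  have hwE : (w : ℝ) ≤ L ^ E := le_trans (by exact_mod_cast hwz) hz
  have hR : ∀ n m : ℕ, ∀ y₁ y₂ : ℕ, 1 ≤ y₂ → y₂ ≤ y₁ → (y₁ : ℝ) ≤ L ^ E → (Vz y₂)⁻¹ ≤ L →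
      |(∑ a ∈ box c A, PM F σ y₁ a n * PM F σ y₂ a m) / PA -
        ∏ i, hh y₂ (σ i * (F i).eval (n : ℤ)) (σ i * (F i).eval (m : ℤ))| ≤ e := by
    intro n m y₁ y₂ hy hy12 hyE hyV
    rw [corr_prod', hPA, ← prod_div_distrib]
    have := prod_diff (univ : Finset (Fin k)) (fun i => (∑ a ∈ Ioc (c i) (c i + A i), LL y₁ ((a : ℤ) + σ i * (F i).eval (n : ℤ)) *
      LL y₂ ((a : ℤ) + σ i * (F i).eval (m : ℤ))) / A i) (fun i => hh y₂ (σ i * (F i).eval (n : ℤ)) (σ i * (F i).eval (m : ℤ)))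
      (L ^ 2) δ (one_le_pow₀ hL1) hδ0 hδ1 (fun i _ => hcorr i y₁ y₂ hy hy12 hyE _ _)
      (fun i _ => ⟨hh_nonneg _ _ _, (hh_le _ _ _).trans (pow_le_pow_left₀ (inv_pos.2 (Vz_pos _)).le hyV 2)⟩)
    rw [card_univ, Fintype.card_fin] at this
    exact this
  -- the inner sums
  have hin : ∀ n m : ℕ, (∑ a ∈ box c A, (PM F σ z a n - PM F σ w a n) * (PM F σ z a m - PM F σ w a m)) / PA ≤
      ((Vz w)⁻¹ ^ 2) ^ k * (∏ p ∈ PP w z, (1 + (if ∃ i, (p : ℤ) ∣ (F i).eval (n : ℤ) - (F i).eval (m : ℤ) then ((3 ^ k : ℕ) : ℝ) / (p : ℝ) else 0)) - 1) + 4 * e := by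
    intro n m
    have r1 := (abs_le.1 (hR n m z z (by omega) le_rfl hzE hVz)).2
    have r2 := (abs_le.1 (hR n m z w (by omega) hwz hzE hVw)).1
    have r3 := (abs_le.1 (hR m n z w (by omega) hwz hzE hVw)).1
    have r4 := (abs_le.1 (hR n m w w (by omega) le_rfl hwE hVw)).2
    have e3 : ∏ i, hh w (σ i * (F i).eval (m : ℤ)) (σ i * (F i).eval (n : ℤ)) =
        ∏ i, hh w (σ i * (F i).eval (n : ℤ)) (σ i * (F i).eval (m : ℤ)) :=
      prod_congr rfl fun i _ => hh_symm _ _ _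
    rw [e3] at r3
    have e4 : ∑ a ∈ box c A, (PM F σ z a n - PM F σ w a n) * (PM F σ z a m - PM F σ w a m) =
        ∑ a ∈ box c A, PM F σ z a n * PM F σ z a m -
        ∑ a ∈ box c A, PM F σ z a n * PM F σ w a m -
        ∑ a ∈ box c A, PM F σ z a m * PM F σ w a n +
        ∑ a ∈ box c A, PM F σ w a n * PM F σ w a m := by
      rw [← sum_sub_distrib, ← sum_sub_distrib, ← sum_add_distrib]
      apply sum_congr rfl
      intro a _
      ring
    rw [e4, add_div, sub_div, sub_div]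
    have h6 := prod_hh hwz (fun i => σ i * (F i).eval (n : ℤ)) (fun i => σ i * (F i).eval (m : ℤ))
    have eΓ : ∏ p ∈ PP w z, (1 + (if ∃ i, (p : ℤ) ∣ σ i * (F i).eval (n : ℤ) - σ i * (F i).eval (m : ℤ) then 3 ^ k / (p : ℝ) else 0)) =
        ∏ p ∈ PP w z, (1 + (if ∃ i, (p : ℤ) ∣ (F i).eval (n : ℤ) - (F i).eval (m : ℤ) then ((3 ^ k : ℕ) : ℝ) / (p : ℝ) else 0)) := by
      apply prod_congr rfl
      intro p _
      have h7 : ∀ i, (p : ℤ) ∣ σ i * (F i).eval (n : ℤ) - σ i * (F i).eval (m : ℤ) ↔ (p : ℤ) ∣ (F i).eval (n : ℤ) - (F i).eval (m : ℤ) := by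
        intro i
        rcases hσ i with h | h
        · rw [h, one_mul, one_mul]
        · rw [h, ← dvd_neg]
          have : -(-1 * (F i).eval (n : ℤ) - -1 * (F i).eval (m : ℤ)) = (F i).eval (n : ℤ) - (F i).eval (m : ℤ) := by ring
          rw [this]
      simp only [h7]
      push_cast
      rfl
    rw [eΓ] at h6
    set Γ := ∏ p ∈ PP w z, (1 + (if ∃ i, (p : ℤ) ∣ (F i).eval (n : ℤ) - (F i).eval (m : ℤ) then ((3 ^ k : ℕ) : ℝ) / (p : ℝ) else 0)) with hΓ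
    have hΓ1 : 1 ≤ Γ := by
      rw [hΓ]
      calc (1 : ℝ) = ∏ _p ∈ PP w z, (1 : ℝ) := by rw [prod_const_one]
        _ ≤ _ := by
          apply prod_le_prod (fun _ _ => zero_le_one)
          intro p _
          have : (0 : ℝ) ≤ (if ∃ i, (p : ℤ) ∣ (F i).eval (n : ℤ) - (F i).eval (m : ℤ) then ((3 ^ k : ℕ) : ℝ) / (p : ℝ) else 0) := by
            split_ifs <;> positivity
          linarith
    have h7 : ∏ i, hh w (σ i * (F i).eval (n : ℤ)) (σ i * (F i).eval (m : ℤ)) ≤ ((Vz w)⁻¹ ^ 2) ^ k := by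
      calc ∏ i, hh w (σ i * (F i).eval (n : ℤ)) (σ i * (F i).eval (m : ℤ)) ≤ ∏ _i : Fin k, ((Vz w)⁻¹ ^ 2) :=
            prod_le_prod (fun i _ => hh_nonneg _ _ _) (fun i _ => hh_le _ _ _)
        _ = _ := by rw [prod_const, card_univ, Fintype.card_fin]
    have h8 : (∏ i, hh w (σ i * (F i).eval (n : ℤ)) (σ i * (F i).eval (m : ℤ))) * (Γ - 1) ≤ ((Vz w)⁻¹ ^ 2) ^ k * (Γ - 1) :=
      mul_le_mul_of_nonneg_right h7 (by linarith)
    linarith
  -- expansion of the square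
  have hexp : ∑ a ∈ box c A, (∑ n ∈ elts T x, G n * (PM F σ z a n - PM F σ w a n)) ^ 2 =
      PA * ∑ m ∈ elts T x, ∑ n ∈ elts T x, G n * G m *
        ((∑ a ∈ box c A, (PM F σ z a n - PM F σ w a n) * (PM F σ z a m - PM F σ w a m)) / PA) := by
    have e1 : ∀ a ∈ box c A, (∑ n ∈ elts T x, G n * (PM F σ z a n - PM F σ w a n)) ^ 2 =
        ∑ m ∈ elts T x, ∑ n ∈ elts T x, G n * G m * ((PM F σ z a n - PM F σ w a n) * (PM F σ z a m - PM F σ w a m)) := by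
      intro a _
      rw [pow_two, sum_mul_sum, sum_comm]
      apply sum_congr rfl
      intro m _
      apply sum_congr rfl
      intro n _
      ring
    rw [sum_congr rfl e1, sum_comm, mul_sum]
    apply sum_congr rfl
    intro m _
    rw [sum_comm, mul_sum]
    apply sum_congr rfl
    intro n _
    rw [← mul_sum]
    field_simp
  rw [hexp]
  have he0 : 0 ≤ e := by positivity
  have hVk : 0 ≤ ((Vz w)⁻¹ ^ 2) ^ k := by positivity
  set X1 : ℝ := Real.exp (((2 * K : ℕ) : ℝ) / w) - 1 with hX1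
  have hstep : ∀ m ∈ elts T x, ∑ n ∈ elts T x, G n * G m *
        ((∑ a ∈ box c A, (PM F σ z a n - PM F σ w a n) * (PM F σ z a m - PM F σ w a m)) / PA) ≤
        ((Vz w)⁻¹ ^ 2) ^ k * (N * (M * X1 + 2 / L)) + N * (4 * e) := by
    intro m _
    have t1 : ∀ n ∈ elts T x, G n * G m *
        ((∑ a ∈ box c A, (PM F σ z a n - PM F σ w a n) * (PM F σ z a m - PM F σ w a m)) / PA) ≤
        ((Vz w)⁻¹ ^ 2) ^ k * (∏ p ∈ PP w z, (1 + (if ∃ i, (p : ℤ) ∣ (F i).eval (n : ℤ) - (F i).eval (m : ℤ) then ((3 ^ k : ℕ) : ℝ) / (p : ℝ) else 0)) - 1) + 4 * e := by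
      intro n _
      have g1 := hG n
      have g2 := hG m
      have hY : 0 ≤ ((Vz w)⁻¹ ^ 2) ^ k * (∏ p ∈ PP w z, (1 + (if ∃ i, (p : ℤ) ∣ (F i).eval (n : ℤ) - (F i).eval (m : ℤ) then ((3 ^ k : ℕ) : ℝ) / (p : ℝ) else 0)) - 1) + 4 * e := by
        apply add_nonneg _ (by positivity)
        apply mul_nonneg hVk
        rw [sub_nonneg]
        calc (1 : ℝ) = ∏ _p ∈ PP w z, (1 : ℝ) := by rw [prod_const_one]
          _ ≤ _ := by
            apply prod_le_prod (fun _ _ => zero_le_one)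
            intro p _
            have : (0 : ℝ) ≤ (if ∃ i, (p : ℤ) ∣ (F i).eval (n : ℤ) - (F i).eval (m : ℤ) then ((3 ^ k : ℕ) : ℝ) / (p : ℝ) else 0) := by
              split_ifs <;> positivity
            linarith
      have g3 : 0 ≤ G n * G m := mul_nonneg g1.1 g2.1
      have g4 : G n * G m ≤ 1 := mul_le_one₀ g1.2 g2.1 g2.2
      exact (mul_le_mul_of_nonneg_left (hin n m) g3).trans (mul_le_of_le_one_left hY g4)
    refine (sum_le_sum t1).trans ?_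
    rw [sum_add_distrib, ← mul_sum]
    have t2 := h5' (fun i => (F i).eval (m : ℤ))
    have t6 : (∑ _n ∈ elts T x, 4 * e) = N * (4 * e) := by
      rw [sum_const, nsmul_eq_mul, card_elts]
    rw [t6]
    have t7 := mul_le_mul_of_nonneg_left t2 hVk
    linarith
  have hsum := sum_le_sum hstep
  rw [sum_const, nsmul_eq_mul, card_elts] at hsum
  have u2 : ((Vz w)⁻¹ ^ 2) ^ k * (2 / L) ≤ ε / 4 := by
    rw [div_le_iff₀ hε] at hL6
    rw [mul_div_assoc', div_le_iff₀ hL0]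
    linarith
  have u5 : 4 * e ≤ ε / 4 := by
    have v1 : (L ^ 2 + 1) ^ k ≤ 2 ^ k * L ^ (2 * k) := by
      calc (L ^ 2 + 1) ^ k ≤ (2 * L ^ 2) ^ k := by
            apply pow_le_pow_left₀ (by positivity)
            nlinarith
        _ = _ := by rw [mul_pow, ← pow_mul]
    have v2 : e ≤ k * (2 ^ k * L ^ (2 * k)) * δ := by
      rw [he]
      apply mul_le_mul_of_nonneg_right _ hδ0
      exact mul_le_mul_of_nonneg_left v1 (Nat.cast_nonneg _)
    have v3 : (k : ℝ) * (2 ^ k * L ^ (2 * k)) * δ = k * 2 ^ (3 * k + 2) / L ^ 2 := by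
      rw [hδ, hU, div_pow]
      have : L ^ (2 * k + 2) = L ^ (2 * k) * L ^ 2 := pow_add _ _ _
      rw [this]
      have h2' : (2 : ℝ) ^ (3 * k + 2) = 2 ^ k * 2 ^ (2 * k + 2) := by
        rw [← pow_add]; congr 1; ring
      rw [h2']
      field_simp
    rw [v3] at v2
    have v4 : (16 * k * 2 ^ (3 * k + 2) / ε) ≤ L := by linarith
    have v5 : (k : ℝ) * 2 ^ (3 * k + 2) / L ^ 2 ≤ ε / 16 := by
      rw [div_le_iff₀ (by positivity)] at v4 ⊢
      have : L ≤ L ^ 2 := by nlinarith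
      have h6 : ε * L ≤ ε * L ^ 2 := mul_le_mul_of_nonneg_left this hε.le
      nlinarith
    linarith
  have hfin : ∑ m ∈ elts T x, ∑ n ∈ elts T x, G n * G m *
        ((∑ a ∈ box c A, (PM F σ z a n - PM F σ w a n) * (PM F σ z a m - PM F σ w a m)) / PA) ≤
      ε * N ^ 2 := by
    refine hsum.trans ?_
    have u6 : ((Vz w)⁻¹ ^ 2) ^ k * (N * (M * X1 + 2 / L)) + N * (4 * e) ≤ ε * N := by
      have u7 : ((Vz w)⁻¹ ^ 2) ^ k * (M * X1) ≤ ε / 4 := by
        calc ((Vz w)⁻¹ ^ 2) ^ k * (M * X1) = M * (((Vz w)⁻¹ ^ 2) ^ k * X1) := by ring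
          _ ≤ M * (ε / (4 * M)) := mul_le_mul_of_nonneg_left u1 (by linarith)
          _ = _ := by field_simp
      have u8 : ((Vz w)⁻¹ ^ 2) ^ k * (N * (M * X1 + 2 / L)) + N * (4 * e) =
          N * (((Vz w)⁻¹ ^ 2) ^ k * (M * X1) + ((Vz w)⁻¹ ^ 2) ^ k * (2 / L) + 4 * e) := by ring
      rw [u8, mul_comm ε N]
      apply mul_le_mul_of_nonneg_left _ hN0
      linarith
    calc N * (((Vz w)⁻¹ ^ 2) ^ k * (N * (M * X1 + 2 / L)) + N * (4 * e)) ≤ N * (ε * N) :=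
          mul_le_mul_of_nonneg_left u6 hN0
      _ = _ := by ring
  calc PA * _ ≤ PA * (ε * N ^ 2) := mul_le_mul_of_nonneg_left hfin hPA0.le
    _ = _ := by ring

end Pool.Agent.U746.AP
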